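import Pool.Agent.Lib_helper92.GC.PS
import Pool.Agent.Lib_helper95.RC.Main24
import Pool.Agent.Lib_helper98.RenyiConvex
import Pool.Agent.Lib_helper92.RC.Bridge

/-!
# The subtraction terms: `ℓ[(1+xc)^p]`, `ℓ[(1+xc)^(p-1)]`, `ℓ[(1+xc)^(p-1) c]`
-/

open scoped BigOperators ComplexOrder Kronecker MatrixOrder Topology
open MeasureTheory Matrix Filter

namespace Pool.Agent.GC

open Pool.Agent.RC

variable {ι κ : Type} [Fintype ι] [DecidableEq ι] [Fintype κ] [DecidableEq κ]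

/-- trace of the functional calculus -/
noncomputable def tf (f : ℝ → ℝ) (X : Matrix ι ι ℂ) : ℝ := (trace (cfc f X)).re

theorem scalar_tangent {p x y : ℝ} (hp : 1 < p) (hx : 0 ≤ x) (hy : 0 ≤ y) :
    y ^ p + p * y ^ (p - 1) * (x - y) ≤ x ^ p := by
  rcases eq_or_lt_of_le hy with rfl | hy'
  · rw [Real.zero_rpow (by linarith), Real.zero_rpow (by linarith)]
    simpa using Real.rpow_nonneg hx p
  · have h1 : (-1 : ℝ) ≤ (x - y) / y := by
      rw [le_div_iff₀ hy']
      linarith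
    have h2 := one_add_mul_self_le_rpow_one_add h1 hp.le
    have e1 : 1 + (x - y) / y = x / y := by field_simp; ring
    rw [e1, Real.div_rpow hx hy, le_div_iff₀ (Real.rpow_pos_of_pos hy' p)] at h2
    have e2 : y ^ p = y ^ (p - 1) * y := by
      rw [← Real.rpow_add_one hy'.ne']
      congr 1
      ring
    calc y ^ p + p * y ^ (p - 1) * (x - y) = (1 + p * ((x - y) / y)) * y ^ p := by
          rw [e2]; field_simp
      _ ≤ x ^ p := h2

/-- trace Klein inequality for `x ^ p` -/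
theorem klein {p : ℝ} (hp : 1 < p) {X Y : Matrix ι ι ℂ} (hX : X.PosSemidef)
    (hY : Y.PosSemidef) :
    tf (fun x => x ^ p) Y + p * (trace (cfc (fun x : ℝ => x ^ (p - 1)) Y * (X - Y))).re ≤
      tf (fun x => x ^ p) X := by
  obtain ⟨U, y, hU, hU', hy, hYe⟩ := Lib_helper98.Renyi.exists_spectral_nonneg hY
  obtain ⟨m, hm, hm', hm''⟩ := Lib_helper98.Renyi.jensen_trace (convexOn_rpow hp.le) hX hU hU'
  have h1 : tf (fun x => x ^ p) Y = ∑ i, y i ^ p := by
    rw [hYe]
    exact Lib_helper98.Renyi.trF_conj_diagonal _ U hU y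
  have h2 : (trace (cfc (fun x : ℝ => x ^ (p - 1)) Y * (X - Y))).re =
      ∑ i, y i ^ (p - 1) * (m i - y i) := by
    have e1 : cfc (fun x : ℝ => x ^ (p - 1)) Y =
        U * diagonal (fun i => ((y i ^ (p - 1) : ℝ) : ℂ)) * Uᴴ := by
      rw [hYe, Lib_helper98.Renyi.cfc_conj_diagonal _ U hU]
    have e2 : trace (cfc (fun x : ℝ => x ^ (p - 1)) Y * (X - Y)) =
        trace (diagonal (fun i => ((y i ^ (p - 1) : ℝ) : ℂ)) * (Uᴴ * X * U - Uᴴ * Y * U)) := by
      rw [e1]
      calc trace (U * diagonal (fun i => ((y i ^ (p - 1) : ℝ) : ℂ)) * Uᴴ * (X - Y))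
          = trace (U * (diagonal (fun i => ((y i ^ (p - 1) : ℝ) : ℂ)) * Uᴴ * (X - Y))) := by
            simp only [Matrix.mul_assoc]
        _ = trace (diagonal (fun i => ((y i ^ (p - 1) : ℝ) : ℂ)) * Uᴴ * (X - Y) * U) := by
            rw [trace_mul_comm]
        _ = _ := by
            congr 1
            noncomm_ring
    have e3 : Uᴴ * Y * U = diagonal (fun i => ((y i : ℝ) : ℂ)) := by
      rw [hYe]
      calc Uᴴ * (U * diagonal (fun i => ((y i : ℝ) : ℂ)) * Uᴴ) * U =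
          (Uᴴ * U) * diagonal (fun i => ((y i : ℝ) : ℂ)) * (Uᴴ * U) := by noncomm_ring
        _ = _ := by rw [hU, one_mul, mul_one]
    rw [e2, e3, Matrix.trace]
    rw [Complex.re_sum]
    apply Finset.sum_congr rfl
    intro i _
    rw [diag_apply, diagonal_mul, Matrix.sub_apply, hm' i, diagonal_apply_eq]
    norm_cast
  have h3 : (∑ i, m i ^ p) ≤ tf (fun x => x ^ p) X := hm''
  rw [h1, h2, Finset.mul_sum, ← Finset.sum_add_distrib]
  refine (Finset.sum_le_sum fun i _ => ?_).trans h3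
  have := scalar_tangent hp (hm i) (hy i)
  linarith

/-! ### doubling of sequences -/

/-- the sequence `b 0, 0, b 1, 0, b 2, ...` -/
noncomputable def dbl (b : ℕ → ℝ) (k : ℕ) : ℝ := if Even k then b (k / 2) else 0

theorem dbl_two_mul (b : ℕ → ℝ) (m : ℕ) : dbl b (2 * m) = b m := by
  unfold dbl
  rw [if_pos (even_two_mul m), Nat.mul_div_cancel_left m two_pos]

theorem hasSum_dbl {g : ℕ → ℝ} {s : ℝ} (hg : ∀ k, ¬ Even k → g k = 0) :
    HasSum (fun m => g (2 * m)) s ↔ HasSum g s := by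
  apply Function.Injective.hasSum_iff (g := fun m : ℕ => 2 * m) (f := g)
  · intro a b h
    have : 2 * a = 2 * b := h
    omega
  · intro k hk
    apply hg
    rintro ⟨m, hm⟩
    exact hk ⟨m, by simp only; omega⟩

theorem dbl_odd (b : ℕ → ℝ) {k : ℕ} (hk : ¬ Even k) : dbl b k = 0 := by
  unfold dbl
  rw [if_neg hk]

/-- the even moments of `(A, D)` -/
noncomputable def mse (p : ℝ) (A D : Matrix ι ι ℂ) : ℕ → ℝ
  | 0 => trF (fun x => x ^ p) A
  | m + 1 => Ts p A D m

/-- moments of the symmetrised pair: `μ 0 = Tr A^p`, `μ (2m+2) = Ts p A D m`, odd ones vanish -/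
noncomputable def mu (p : ℝ) (A D : Matrix ι ι ℂ) : ℕ → ℝ := dbl (mse p A D)

theorem mu_zero (p : ℝ) (A D : Matrix ι ι ℂ) : mu p A D 0 = trF (fun x => x ^ p) A := by
  have := dbl_two_mul (mse p A D) 0
  exact this

theorem mu_even (p : ℝ) (A D : Matrix ι ι ℂ) (m : ℕ) : mu p A D (2 * m + 2) = Ts p A D m :=
  dbl_two_mul (mse p A D) (m + 1)

theorem mu_odd (p : ℝ) (A D : Matrix ι ι ℂ) {k : ℕ} (hk : ¬ Even k) : mu p A D k = 0 :=
  dbl_odd _ hk

/-! ### scaling `D` -/

theorem tn_smul_right (A D : Matrix ι ι ℂ) (n : ℕ) (x r : ℝ) :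
    tn A (x • D) n r = x ^ n * tn A D n r := by
  unfold tn
  rw [Matrix.mul_smul, smul_pow, Matrix.trace_smul, Complex.smul_re, smul_eq_mul]

theorem In_smul_right (α : ℝ) (A D : Matrix ι ι ℂ) (n : ℕ) (x : ℝ) :
    In α A (x • D) n = x ^ n * In α A D n := by
  unfold In
  rw [← integral_const_mul]
  congr 1
  funext r
  rw [tn_smul_right]
  ring

theorem j2_smul_right (A D : Matrix ι ι ℂ) (x r : ℝ) : j2 A (x • D) r = x ^ 2 * j2 A D r := by
  unfold j2
  simp only [Matrix.mul_smul, Matrix.smul_mul, Matrix.trace_smul, Complex.smul_re, smul_eq_mul]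
  ring

theorem T2_smul_right (α : ℝ) (A D : Matrix ι ι ℂ) (x : ℝ) :
    T2 α A (x • D) = x ^ 2 * T2 α A D := by
  unfold T2
  rw [mul_div_assoc', ← integral_const_mul]
  congr 2
  funext r
  rw [j2_smul_right]
  ring

theorem Ts_smul_right (α : ℝ) (A D : Matrix ι ι ℂ) (x : ℝ) (m : ℕ) :
    Ts α A (x • D) m = x ^ (2 * m + 2) * Ts α A D m := by
  rcases m with _ | m
  · exact T2_smul_right α A D x
  · show In α A (x • D) (2 * (m + 2)) / _ = x ^ (2 * (m + 1) + 2) *
      (In α A D (2 * (m + 2)) / bet α (2 * (m + 2)))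
    rw [In_smul_right, mul_div_assoc]
    rfl

theorem IsPair.smul_right {A D : Matrix ι ι ℂ} (h : IsPair A D) {x : ℝ} (hx : |x| ≤ 1) :
    IsPair A (x • D) := by
  have hx' := abs_le.1 hx
  have h1 : (0 : ℝ) ≤ (1 + x) / 2 := by linarith [hx'.1]
  have h2 : (0 : ℝ) ≤ (1 - x) / 2 := by linarith [hx'.2]
  have e1 : A - x • D = ((1 + x) / 2) • (A - D) + ((1 - x) / 2) • (A + D) := by
    module
  have e2 : A + x • D = ((1 - x) / 2) • (A - D) + ((1 + x) / 2) • (A + D) := by
    module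
  refine ⟨h.pos, ?_, ?_⟩
  · rw [e1]
    exact (h.sub.smul h1).add (h.add.smul h2)
  · rw [e2]
    exact (h.sub.smul h2).add (h.add.smul h1)

/-! ### the scalar pair -/

theorem trF_unit (f : ℝ → ℝ) (c : ℝ) : trF f (c • (1 : Matrix Unit Unit ℂ)) = f c := by
  have h := TRF.trF_conj f (U := (1 : Matrix Unit Unit ℂ)) (by simp) (fun _ => c)
  have e : (1 : Matrix Unit Unit ℂ) * Matrix.diagonal (fun _ : Unit => (c : ℂ)) * 1ᴴ =
      c • (1 : Matrix Unit Unit ℂ) := by
    ext i j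
    simp [Matrix.one_apply]
  rw [e] at h
  simpa using h

theorem G_unit (p x : ℝ) : G p (1 : Matrix Unit Unit ℂ) (x • 1) =
    ((1 + x) ^ p + (1 - x) ^ p) / 2 - 1 := by
  unfold G
  have e1 : (1 : Matrix Unit Unit ℂ) + x • 1 = (1 + x) • 1 := by rw [add_smul, one_smul]
  have e2 : (1 : Matrix Unit Unit ℂ) - x • 1 = (1 - x) • 1 := by rw [sub_smul, one_smul]
  have e3 : (1 : Matrix Unit Unit ℂ) = (1 : ℝ) • 1 := by rw [one_smul]
  rw [e1, e2, trF_unit, trF_unit]
  conv_lhs => rw [e3]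
  rw [trF_unit, Real.one_rpow]

/-- the weights are the binomial coefficients -/
theorem weights {p : ℝ} (h2 : 2 < p) (h4 : p < 4) (h3 : p ≠ 3) {A D : Matrix ι ι ℂ}
    (h : IsPair A D) : HasSum (fun m : ℕ => bin p (2 * m + 2) * Ts p A D m) (G p A D) := by
  obtain ⟨c, hc, hser⟩ := series24 p h2 h4 h3
  have h0 : 0 < p := by linarith
  have hc0 : c ≠ 0 := by
    rintro rfl
    simp at hc
  have hα : ∀ m : ℕ, p < ((2 * (m + 2) : ℕ) : ℝ) := by
    intro m
    push_cast
    have : (0 : ℝ) ≤ m := Nat.cast_nonneg m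
    linarith
  have hb : ∀ m : ℕ, 0 < bet p (2 * (m + 2)) := fun m => bet_pos p _ h0 (hα m)
  set w : ℕ → ℝ := fun m => c * (bet p (2 * (m + 2)) / (2 * ((m : ℝ) + 2))) with hw
  set C₂ : ℝ := p * (p - 1) / 2 with hC₂
  have hsum : ∀ {ι : Type} [Fintype ι] [DecidableEq ι] (A D : Matrix ι ι ℂ), IsPair A D →
      HasSum (fun m : ℕ => w m * Ts p A D (m + 1)) (G p A D - C₂ * T2 p A D) := by
    intro ι _ _ A D h
    have h5 := (hser ι A D h).mul_left c
    rw [mul_div_cancel₀ _ hc0] at h5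
    have h6 : (fun m : ℕ => w m * Ts p A D (m + 1)) =
        fun m : ℕ => c * (In p A D (2 * (m + 2)) / (2 * ((m : ℝ) + 2))) := by
      funext m
      have := (hb m).ne'
      show c * (bet p (2 * (m + 2)) / (2 * ((m : ℝ) + 2))) *
        (In p A D (2 * (m + 2)) / bet p (2 * (m + 2))) = _
      field_simp
    rw [h6]
    exact h5
  -- full weight sequence
  set W : ℕ → ℝ := fun m => Nat.casesOn m 1 fun m => Nat.casesOn m C₂ w with hW
  have hWs : ∀ {ι : Type} [Fintype ι] [DecidableEq ι] (A D : Matrix ι ι ℂ), IsPair A D →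
      HasSum (fun m => W (m + 1) * Ts p A D m) (G p A D) := by
    intro ι _ _ A D h
    have h5 := (hasSum_nat_add_iff (f := fun m => W (m + 1) * Ts p A D m) 1).1 (hsum A D h)
    rw [Finset.sum_range_one] at h5
    have e : G p A D - C₂ * T2 p A D + W (0 + 1) * Ts p A D 0 = G p A D := by
      show G p A D - C₂ * T2 p A D + C₂ * T2 p A D = G p A D
      ring
    rwa [e] at h5
  have hone : ∀ (m : ℕ) (x : ℝ), Ts p (1 : Matrix Unit Unit ℂ) (x • 1) m = x ^ (2 * m + 2) := by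
    intro m x
    rw [Ts_smul_right]
    rcases m with _ | m
    · show _ * T2 p 1 1 = _
      rw [T2_one p h0 h4, mul_one]
    · show _ * (In p 1 1 (2 * (m + 2)) / bet p (2 * (m + 2))) = _
      rw [In_one, div_self (hb m).ne', mul_one]
  have hscal : ∀ x : ℝ, |x| ≤ 1 → HasSum (fun m => W m * x ^ (2 * m))
      (((1 + x) ^ p + (1 - x) ^ p) / 2) := by
    intro x hx
    have h5 := hWs 1 (x • 1) (IsPair.smul_right pair_one hx)
    rw [G_unit] at h5
    simp only [hone] at h5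
    have h6 := (hasSum_nat_add_iff (f := fun m => W m * x ^ (2 * m)) 1).1 h5
    rw [Finset.sum_range_one] at h6
    have e : ((1 + x) ^ p + (1 - x) ^ p) / 2 - 1 + W 0 * x ^ (2 * 0) =
        ((1 + x) ^ p + (1 - x) ^ p) / 2 := by
      show ((1 + x) ^ p + (1 - x) ^ p) / 2 - 1 + 1 * x ^ (2 * 0) = _
      simp
    rwa [e] at h6
  have hbin : ∀ x : ℝ, |x| < 1 → HasSum (fun m => bin p (2 * m) * x ^ (2 * m))
      (((1 + x) ^ p + (1 - x) ^ p) / 2) := by
    intro x hx
    have h5 := ((bin_hasSum p hx).2.add (bin_hasSum p (x := -x) (by rwa [abs_neg])).2).mul_left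
      (1 / 2)
    have h6 : HasSum (fun k : ℕ => (1 / 2 : ℝ) * (bin p k * x ^ k + bin p k * (-x) ^ k))
        (((1 + x) ^ p + (1 - x) ^ p) / 2) := by
      have e : ((1 + x) ^ p + (1 - x) ^ p) / 2 = 1 / 2 * ((1 + x) ^ p + (1 + -x) ^ p) := by
        rw [← sub_eq_add_neg]
        ring
      rw [e]
      exact h5
    have h7 := (hasSum_dbl (g := fun k : ℕ => (1 / 2 : ℝ) * (bin p k * x ^ k + bin p k * (-x) ^ k))
      (by
        intro k hk
        rw [Nat.not_even_iff_odd] at hk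
        rw [hk.neg_pow]
        ring)).2 h6
    refine h7.congr_fun fun m => ?_
    rw [(even_two_mul m).neg_pow]
    ring
  have hPS : ∀ (b : ℕ → ℝ), (∀ x : ℝ, |x| < 1 → HasSum (fun m => b m * x ^ (2 * m))
      (((1 + x) ^ p + (1 - x) ^ p) / 2)) →
      PS (fun k => dbl b k * (1 / 2) ^ k)
        (fun c => ((1 + c / 2) ^ p + (1 - c / 2) ^ p) / 2) := by
    intro b hb
    have key : ∀ c : ℝ, |c| ≤ 1 → HasSum (fun k => dbl b k * (1 / 2) ^ k * c ^ k)
        (((1 + c / 2) ^ p + (1 - c / 2) ^ p) / 2) := by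
      intro c hc
      have hc2 : |c / 2| < 1 := by
        rw [abs_div, abs_two]
        linarith
      have h7 : HasSum (fun m : ℕ => dbl b (2 * m) * (1 / 2) ^ (2 * m) * c ^ (2 * m))
          (((1 + c / 2) ^ p + (1 - c / 2) ^ p) / 2) := by
        refine (hb _ hc2).congr_fun fun m => ?_
        rw [dbl_two_mul, div_pow, div_pow, one_pow]
        ring
      exact (hasSum_dbl (g := fun k : ℕ => dbl b k * (1 / 2) ^ k * c ^ k) (fun k hk => by
        simp [dbl_odd b hk])).1 h7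
    refine ⟨?_, key⟩
    have := (key 1 (by simp)).summable.abs
    simpa using this
  have heq := (hPS W fun x hx => hscal x hx.le).unique (hPS (fun m => bin p (2 * m)) hbin)
    fun _ _ => rfl
  have hWb : ∀ m, W m = bin p (2 * m) := by
    intro m
    have h5 := congr_fun heq (2 * m)
    simp only [dbl_two_mul] at h5
    exact mul_right_cancel₀ (by positivity) h5
  refine (hWs A D h).congr_fun fun m => ?_
  have h8 : W (m + 1) = bin p (2 * m + 2) := hWb (m + 1)
  exact congrArg (· * Ts p A D m) h8.symm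

/-- the symmetrised trace function `(1/2) (Tr (A+xD)^p + Tr (A-xD)^p)` -/
noncomputable def Sy (p : ℝ) (A D : Matrix ι ι ℂ) (x : ℝ) : ℝ :=
  (trF (fun y => y ^ p) (A + x • D) + trF (fun y => y ^ p) (A - x • D)) / 2

/-- **(M1')** -/
theorem hasSum_M1 {p : ℝ} (h2 : 2 < p) (h4 : p < 4) (h3 : p ≠ 3) {A D : Matrix ι ι ℂ}
    (h : IsPair A D) {x : ℝ} (hx : |x| ≤ 1) :
    HasSum (fun k => bin p k * x ^ k * mu p A D k) (Sy p A D x) := by
  have h1 := weights h2 h4 h3 (IsPair.smul_right h hx)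
  have h5 : HasSum (fun m : ℕ => bin p (2 * (m + 1)) * x ^ (2 * (m + 1)) * mu p A D (2 * (m + 1)))
      (G p A (x • D)) := by
    refine h1.congr_fun fun m => ?_
    have e : mu p A D (2 * (m + 1)) = Ts p A D m := mu_even p A D m
    rw [e, Ts_smul_right]
    show _ = bin p (2 * (m + 1)) * (x ^ (2 * (m + 1)) * Ts p A D m)
    ring
  have h6 := (hasSum_nat_add_iff
    (f := fun m : ℕ => bin p (2 * m) * x ^ (2 * m) * mu p A D (2 * m)) 1).1 h5
  rw [Finset.sum_range_one] at h6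
  have e : G p A (x • D) + bin p (2 * 0) * x ^ (2 * 0) * mu p A D (2 * 0) = Sy p A D x := by
    simp only [mul_zero, bin_zero, pow_zero, mu_zero, mul_one, one_mul]
    unfold G Sy
    ring
  rw [e] at h6
  exact (hasSum_dbl (g := fun k : ℕ => bin p k * x ^ k * mu p A D k) (fun k hk => by
    simp [mu_odd p A D hk])).1 h6

theorem Ts_nonneg {p : ℝ} (h0 : 0 < p) (h4 : p < 4) {A D : Matrix ι ι ℂ} (h : IsPair A D)
    (m : ℕ) : 0 ≤ Ts p A D m := by
  have key : ∀ m : ℕ, 0 ≤ In p A D (2 * (m + 2)) / bet p (2 * (m + 2)) := by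
    intro m
    have hα : p < ((2 * (m + 2) : ℕ) : ℝ) := by
      push_cast
      have : (0 : ℝ) ≤ m := Nat.cast_nonneg m
      linarith
    apply div_nonneg _ (bet_pos p _ h0 hα).le
    unfold In
    apply setIntegral_nonneg measurableSet_Ioi
    intro r hr
    have hr0 : (0 : ℝ) < r := hr
    exact mul_nonneg (Real.rpow_nonneg hr0.le _)
      (DEC.tn_nonneg' h hr0.le (even_two_mul _))
  rcases m with _ | m
  · exact (key 0).trans (In4_le_T2 p h0 h4 A D h)
  · exact key m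

/-- the moments are bounded -/
theorem exists_mu_bdd {p : ℝ} (h0 : 0 < p) (h4 : p < 4) {A D : Matrix ι ι ℂ}
    (h : IsPair A D) : ∃ K, ∀ k, |mu p A D k| ≤ K := by
  refine ⟨max |mu p A D 0| (Ts p A D 0), fun k => ?_⟩
  by_cases hk : Even k
  · obtain ⟨m, rfl⟩ := hk
    rcases m with _ | m
    · exact le_max_left _ _
    · have e : m + 1 + (m + 1) = 2 * m + 2 := by ring
      rw [e, mu_even, abs_of_nonneg (Ts_nonneg h0 h4 h m)]
      exact (Ts_anti p h0 h4 A D h (Nat.zero_le m)).trans (le_max_right _ _)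
  · rw [mu_odd p A D hk, abs_zero]
    exact (abs_nonneg _).trans (le_max_left _ _)

theorem PS_Sy {p : ℝ} (h2 : 2 < p) (h4 : p < 4) (h3 : p ≠ 3) {A D : Matrix ι ι ℂ}
    (h : IsPair A D) : PS (fun k => bin p k * mu p A D k) (Sy p A D) := by
  refine ⟨?_, fun c hc => ?_⟩
  · have := (hasSum_M1 h2 h4 h3 h (x := 1) (by simp)).summable.abs
    simpa using this
  · refine (hasSum_M1 h2 h4 h3 h hc).congr_fun fun k => ?_
    ring

theorem posSemidef_add {A D : Matrix ι ι ℂ} (h : IsPair A D) {x : ℝ} (hx : |x| ≤ 1) :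
    (A + x • D).PosSemidef := (IsPair.smul_right h hx).add

theorem posSemidef_sub {A D : Matrix ι ι ℂ} (h : IsPair A D) {x : ℝ} (hx : |x| ≤ 1) :
    (A - x • D).PosSemidef := (IsPair.smul_right h hx).sub

theorem trF_eq_tf (f : ℝ → ℝ) {M : Matrix ι ι ℂ} (h : M.IsHermitian) : trF f M = tf f M :=
  trF_eq_cfc f h

/-- `(1/2) ∑ e Re Tr (A+exD)^(p-1) D` -/
noncomputable def gD (p : ℝ) (A D : Matrix ι ι ℂ) (x : ℝ) : ℝ :=
  ((trace (cfc (fun y : ℝ => y ^ (p - 1)) (A + x • D) * D)).re -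
    (trace (cfc (fun y : ℝ => y ^ (p - 1)) (A - x • D) * D)).re) / 2

/-- `(1/2) ∑ Re Tr (A+exD)^(p-1) A` -/
noncomputable def gA (p : ℝ) (A D : Matrix ι ι ℂ) (x : ℝ) : ℝ :=
  ((trace (cfc (fun y : ℝ => y ^ (p - 1)) (A + x • D) * A)).re +
    (trace (cfc (fun y : ℝ => y ^ (p - 1)) (A - x • D) * A)).re) / 2

theorem Sy_tangent {p : ℝ} (hp : 1 < p) {A D : Matrix ι ι ℂ} (h : IsPair A D) {x y : ℝ}
    (hx : |x| ≤ 1) (hy : |y| ≤ 1) : Sy p A D x + (y - x) * (p * gD p A D x) ≤ Sy p A D y := by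
  have k1 := klein hp (posSemidef_add h hy) (posSemidef_add h hx)
  have k2 := klein hp (posSemidef_sub h hy) (posSemidef_sub h hx)
  have e1 : A + y • D - (A + x • D) = (y - x) • D := by module
  have e2 : A - y • D - (A - x • D) = -((y - x) • D) := by module
  rw [e1, Matrix.mul_smul, trace_smul, Complex.smul_re, smul_eq_mul] at k1
  rw [e2, Matrix.mul_neg, trace_neg, Matrix.mul_smul, trace_smul, Complex.neg_re,
    Complex.smul_re, smul_eq_mul] at k2
  unfold Sy gD
  rw [trF_eq_tf _ (posSemidef_add h hx).isHermitian, trF_eq_tf _ (posSemidef_sub h hx).isHermitian,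
    trF_eq_tf _ (posSemidef_add h hy).isHermitian, trF_eq_tf _ (posSemidef_sub h hy).isHermitian]
  linarith

theorem hasDerivAt_Sy {p : ℝ} (h2 : 2 < p) (h4 : p < 4) (h3 : p ≠ 3) {A D : Matrix ι ι ℂ}
    (h : IsPair A D) {x : ℝ} (hx : |x| < 1) :
    HasSum (fun k : ℕ => (k : ℝ) * (bin p k * mu p A D k) * x ^ (k - 1)) (p * gD p A D x) := by
  obtain ⟨hs, hd⟩ := (PS_Sy h2 h4 h3 h).hasDerivAt hx
  set d := ∑' k : ℕ, (k : ℝ) * (bin p k * mu p A D k) * x ^ (k - 1) with hdd
  have h5 : HasDerivAt (fun y => Sy p A D y - (y - x) * (p * gD p A D x))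
      (d - 1 * (p * gD p A D x)) x :=
    hd.sub (((hasDerivAt_id x).sub_const x).mul_const _)
  have h6 : IsLocalMin (fun y => Sy p A D y - (y - x) * (p * gD p A D x)) x := by
    have hxn : {y : ℝ | |y| < 1} ∈ 𝓝 x :=
      (isOpen_lt continuous_abs continuous_const).mem_nhds hx
    filter_upwards [hxn] with y hy
    have := Sy_tangent (by linarith : (1 : ℝ) < p) h hx.le (le_of_lt hy)
    simp only [sub_self, zero_mul, sub_zero]
    linarith
  have h7 := h6.hasDerivAt_eq_zero h5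
  have h8 : d = p * gD p A D x := by linarith
  rw [← h8]
  exact hs.hasSum

/-- **(SUB, with the factor c)** coefficients of `c (1+xc)^(p-1)` -/
theorem hasSum_SubD {p : ℝ} (h2 : 2 < p) (h4 : p < 4) (h3 : p ≠ 3) {A D : Matrix ι ι ℂ}
    (h : IsPair A D) {x : ℝ} (hx : |x| < 1) :
    HasSum (fun k : ℕ => bin (p - 1) k * x ^ k * mu p A D (k + 1)) (gD p A D x) := by
  have h1 := hasDerivAt_Sy h2 h4 h3 h hx
  have h5 := (hasSum_nat_add_iff (f := fun k : ℕ => (k : ℝ) * (bin p k * mu p A D k) *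
    x ^ (k - 1)) 1).2 (by
      rw [Finset.sum_range_one]
      simpa using h1)
  have h6 := h5.div_const p
  rw [mul_div_cancel_left₀ _ (by linarith : p ≠ 0)] at h6
  refine h6.congr_fun fun k => ?_
  have h0 : p ≠ 0 := by linarith
  have := bin_succ' p k
  simp only [Nat.cast_add, Nat.cast_one, Nat.add_sub_cancel]
  rw [eq_div_iff h0]
  calc bin (p - 1) k * x ^ k * mu p A D (k + 1) * p
      = (p * bin (p - 1) k) * mu p A D (k + 1) * x ^ k := by ring
    _ = (((k : ℝ) + 1) * bin p (k + 1)) * mu p A D (k + 1) * x ^ k := by rw [this]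
    _ = _ := by ring

theorem bin_pascal (p : ℝ) (k : ℕ) : bin p (k + 1) = bin (p - 1) (k + 1) + bin (p - 1) k := by
  have h1 := bin_succ' p k
  have h2 := bin_succ (p - 1) k
  have h3 : (k : ℝ) + 1 ≠ 0 := by positivity
  rw [eq_div_iff h3] at h2
  apply mul_left_cancel₀ h3
  rw [h1, mul_add, mul_comm _ (bin (p - 1) (k + 1)), h2]
  ring

theorem trace_cfc_mul_self {p : ℝ} (hp : 1 < p) {X : Matrix ι ι ℂ} (hX : X.PosSemidef) :
    (trace (cfc (fun y : ℝ => y ^ (p - 1)) X * X)).re = tf (fun y => y ^ p) X := by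
  obtain ⟨U, c, hU, hU', hc, hXe⟩ := Lib_helper98.Renyi.exists_spectral_nonneg hX
  unfold tf
  have e1 : cfc (fun y : ℝ => y ^ (p - 1)) X * X =
      U * diagonal (fun i => ((c i ^ p : ℝ) : ℂ)) * Uᴴ := by
    rw [hXe, Lib_helper98.Renyi.cfc_conj_diagonal _ U hU]
    calc U * diagonal (fun i => ((c i ^ (p - 1) : ℝ) : ℂ)) * Uᴴ *
          (U * diagonal (fun i => ((c i : ℝ) : ℂ)) * Uᴴ)
        = U * diagonal (fun i => ((c i ^ (p - 1) : ℝ) : ℂ)) * (Uᴴ * U) *
          diagonal (fun i => ((c i : ℝ) : ℂ)) * Uᴴ := by noncomm_ring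
      _ = U * (diagonal (fun i => ((c i ^ (p - 1) : ℝ) : ℂ)) *
          diagonal (fun i => ((c i : ℝ) : ℂ))) * Uᴴ := by
          rw [hU]; noncomm_ring
      _ = _ := by
          rw [diagonal_mul_diagonal]
          congr 3
          funext i
          rw [← Complex.ofReal_mul]
          congr 1
          rcases eq_or_lt_of_le (hc i) with h | h
          · rw [← h, Real.zero_rpow (by linarith), Real.zero_rpow (by linarith), zero_mul]
          · rw [← Real.rpow_add_one h.ne']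
            congr 1
            ring
  have e2 : cfc (fun y : ℝ => y ^ p) X = U * diagonal (fun i => ((c i ^ p : ℝ) : ℂ)) * Uᴴ := by
    rw [hXe, Lib_helper98.Renyi.cfc_conj_diagonal _ U hU]
  rw [e1, e2]

/-- **(SUB)** coefficients of `(1+xc)^(p-1)` -/
theorem hasSum_SubA {p : ℝ} (h2 : 2 < p) (h4 : p < 4) (h3 : p ≠ 3) {A D : Matrix ι ι ℂ}
    (h : IsPair A D) {x : ℝ} (hx : |x| < 1) :
    HasSum (fun k : ℕ => bin (p - 1) k * x ^ k * mu p A D k) (gA p A D x) := by
  have h1 := hasSum_M1 h2 h4 h3 h hx.le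
  have h5 := (hasSum_SubD h2 h4 h3 h hx).mul_left x
  have h6 : HasSum (fun k : ℕ => bin p (k + 1) * x ^ (k + 1) * mu p A D (k + 1))
      (Sy p A D x - mu p A D 0) := by
    apply (hasSum_nat_add_iff (f := fun k : ℕ => bin p k * x ^ k * mu p A D k) 1).2
    rw [Finset.sum_range_one]
    simpa [bin_zero] using h1
  have h7 := h6.sub h5
  have h8 : HasSum (fun k : ℕ => bin (p - 1) (k + 1) * x ^ (k + 1) * mu p A D (k + 1))
      (Sy p A D x - mu p A D 0 - x * gD p A D x) := by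
    refine h7.congr_fun fun k => ?_
    rw [bin_pascal p k]
    ring
  have h9 := (hasSum_nat_add_iff (f := fun k : ℕ => bin (p - 1) k * x ^ k * mu p A D k) 1).1 h8
  rw [Finset.sum_range_one] at h9
  have e : Sy p A D x - mu p A D 0 - x * gD p A D x + bin (p - 1) 0 * x ^ 0 * mu p A D 0 =
      gA p A D x := by
    rw [bin_zero, pow_zero]
    have hp : (1 : ℝ) < p := by linarith
    have t1 := trace_cfc_mul_self hp (posSemidef_add h hx.le)
    have t2 := trace_cfc_mul_self hp (posSemidef_sub h hx.le)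
    rw [Matrix.mul_add, trace_add, Matrix.mul_smul, trace_smul, Complex.add_re,
      Complex.smul_re, smul_eq_mul] at t1
    rw [Matrix.mul_sub, trace_sub, Matrix.mul_smul, trace_smul, Complex.sub_re,
      Complex.smul_re, smul_eq_mul] at t2
    unfold Sy gD gA
    rw [trF_eq_tf _ (posSemidef_add h hx.le).isHermitian,
      trF_eq_tf _ (posSemidef_sub h hx.le).isHermitian, ← t1, ← t2]
    ring
  rw [e] at h9
  exact h9

/-! ### the same for any coefficient sequence of the given functions -/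

theorem PS_half {a : ℕ → ℝ} {f : ℝ → ℝ}
    (ha : ∀ c : ℝ, |c| < 1 → HasSum (fun k => a k * c ^ k) (f c)) :
    PS (fun k => a k * (1 / 2) ^ k) (fun c => f (c / 2)) := by
  have key : ∀ c : ℝ, |c| ≤ 1 → HasSum (fun k => a k * (1 / 2) ^ k * c ^ k) (f (c / 2)) := by
    intro c hc
    have hc2 : |c / 2| < 1 := by
      rw [abs_div, abs_two]
      linarith
    refine (ha _ hc2).congr_fun fun k => ?_
    rw [div_pow, div_pow, one_pow]
    ring
  refine ⟨?_, key⟩
  have := (key 1 (by simp)).summable.abs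
  simpa using this

theorem unique_of_hasSum {a b : ℕ → ℝ} {f : ℝ → ℝ}
    (ha : ∀ c : ℝ, |c| < 1 → HasSum (fun k => a k * c ^ k) (f c))
    (hb : ∀ c : ℝ, |c| < 1 → HasSum (fun k => b k * c ^ k) (f c)) : a = b := by
  have h := (PS_half ha).unique (PS_half hb) fun _ _ => rfl
  funext k
  have h1 := congr_fun h k
  exact mul_right_cancel₀ (by positivity) h1

theorem sub_pow {p : ℝ} (h2 : 2 < p) (h4 : p < 4) (h3 : p ≠ 3) {A D : Matrix ι ι ℂ}
    (h : IsPair A D) {l : ℝ} (hl : |l| < 1) {a : ℕ → ℝ}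
    (ha : ∀ c : ℝ, |c| < 1 → HasSum (fun k => a k * c ^ k) ((1 + l * c) ^ p)) :
    HasSum (fun k => a k * mu p A D k) (Sy p A D l) := by
  have e : a = fun k => bin p k * l ^ k :=
    unique_of_hasSum ha fun c hc => (PS_bin p hl).has c hc.le
  rw [e]
  exact hasSum_M1 h2 h4 h3 h hl.le

theorem sub_pow_pred {p : ℝ} (h2 : 2 < p) (h4 : p < 4) (h3 : p ≠ 3) {A D : Matrix ι ι ℂ}
    (h : IsPair A D) {l : ℝ} (hl : |l| < 1) {a : ℕ → ℝ}
    (ha : ∀ c : ℝ, |c| < 1 → HasSum (fun k => a k * c ^ k) ((1 + l * c) ^ (p - 1))) :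
    HasSum (fun k => a k * mu p A D k) (gA p A D l) := by
  have e : a = fun k => bin (p - 1) k * l ^ k :=
    unique_of_hasSum ha fun c hc => (PS_bin (p - 1) hl).has c hc.le
  rw [e]
  exact hasSum_SubA h2 h4 h3 h hl

theorem sub_mul_pow_pred {p : ℝ} (h2 : 2 < p) (h4 : p < 4) (h3 : p ≠ 3) {A D : Matrix ι ι ℂ}
    (h : IsPair A D) {l : ℝ} (hl : |l| < 1) {a : ℕ → ℝ}
    (ha : ∀ c : ℝ, |c| < 1 → HasSum (fun k => a k * c ^ k) (c * (1 + l * c) ^ (p - 1))) :
    HasSum (fun k => a k * mu p A D k) (gD p A D l) := by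
  set b : ℕ → ℝ := fun k => Nat.casesOn k 0 fun k => bin (p - 1) k * l ^ k with hb
  have hb' : ∀ c : ℝ, |c| < 1 → HasSum (fun k => b k * c ^ k) (c * (1 + l * c) ^ (p - 1)) := by
    intro c hc
    have h1 := ((PS_bin (p - 1) hl).has c hc.le).mul_left c
    have h5 : HasSum (fun k : ℕ => b (k + 1) * c ^ (k + 1)) (c * (1 + l * c) ^ (p - 1)) := by
      refine h1.congr_fun fun k => ?_
      show bin (p - 1) k * l ^ k * c ^ (k + 1) = _
      ring
    have h6 := (hasSum_nat_add_iff (f := fun k : ℕ => b k * c ^ k) 1).1 h5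
    rw [Finset.sum_range_one] at h6
    have e : c * (1 + l * c) ^ (p - 1) + b 0 * c ^ 0 = c * (1 + l * c) ^ (p - 1) := by
      show _ + 0 * c ^ 0 = _
      ring
    rwa [e] at h6
  have e : a = b := unique_of_hasSum ha hb'
  rw [e]
  have h5 : HasSum (fun k : ℕ => b (k + 1) * mu p A D (k + 1)) (gD p A D l) :=
    hasSum_SubD h2 h4 h3 h hl
  have h6 := (hasSum_nat_add_iff (f := fun k : ℕ => b k * mu p A D k) 1).1 h5
  rw [Finset.sum_range_one] at h6
  have e : gD p A D l + b 0 * mu p A D 0 = gD p A D l := by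
    show _ + 0 * _ = _
    ring
  rwa [e] at h6

end Pool.Agent.GC
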