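import Mathlib

/-!
# Absolutely summable real power series on `[-1,1]`
-/

open scoped BigOperators Topology
open MeasureTheory Filter

namespace Pool.Agent.GC

/-- `l¹` norm of a coefficient sequence -/
noncomputable def N1 (a : ℕ → ℝ) : ℝ := ∑' k, |a k|

/-- `a` is the absolutely summable coefficient sequence of the function `f` on `[-1,1]` -/
structure PS (a : ℕ → ℝ) (f : ℝ → ℝ) : Prop where
  sum : Summable fun k => |a k|
  has : ∀ c : ℝ, |c| ≤ 1 → HasSum (fun k => a k * c ^ k) (f c)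

/-- pairing with a sequence of moments -/
noncomputable def ev (ν a : ℕ → ℝ) : ℝ := ∑' k, a k * ν k

theorem N1_nonneg (a : ℕ → ℝ) : 0 ≤ N1 a := tsum_nonneg fun _ => abs_nonneg _

theorem summable_mul_bdd {a ν : ℕ → ℝ} {K : ℝ} (ha : Summable fun k => |a k|)
    (hν : ∀ k, |ν k| ≤ K) : Summable fun k => a k * ν k := by
  apply Summable.of_norm_bounded (g := fun k => |a k| * K) (ha.mul_right K)
  intro k
  rw [Real.norm_eq_abs, abs_mul]
  exact mul_le_mul_of_nonneg_left (hν k) (abs_nonneg _)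

theorem hasSum_ev {a ν : ℕ → ℝ} {K : ℝ} (ha : Summable fun k => |a k|)
    (hν : ∀ k, |ν k| ≤ K) : HasSum (fun k => a k * ν k) (ev ν a) :=
  (summable_mul_bdd ha hν).hasSum

theorem abs_ev_le {a ν : ℕ → ℝ} {K : ℝ} (ha : Summable fun k => |a k|)
    (hν : ∀ k, |ν k| ≤ K) : |ev ν a| ≤ K * N1 a := by
  have h1 : |ev ν a| ≤ ∑' k, |a k| * K := by
    rw [← Real.norm_eq_abs]
    apply tsum_of_norm_bounded (ha.mul_right K).hasSum
    intro k
    rw [Real.norm_eq_abs, abs_mul]
    exact mul_le_mul_of_nonneg_left (hν k) (abs_nonneg _)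
  rw [tsum_mul_right] at h1
  rw [mul_comm]
  exact h1

theorem ev_add {a b ν : ℕ → ℝ} {K : ℝ} (ha : Summable fun k => |a k|)
    (hb : Summable fun k => |b k|) (hν : ∀ k, |ν k| ≤ K) :
    ev ν (fun k => a k + b k) = ev ν a + ev ν b := by
  have h := (hasSum_ev ha hν).add (hasSum_ev hb hν)
  have e : (fun k => (a k + b k) * ν k) = fun k => a k * ν k + b k * ν k := by
    funext k; ring
  unfold ev
  rw [e]
  exact h.tsum_eq

theorem ev_smul (r : ℝ) (a ν : ℕ → ℝ) : ev ν (fun k => r * a k) = r * ev ν a := by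
  unfold ev
  rw [← tsum_mul_left]
  congr 1
  funext k
  ring

theorem ev_sub {a b ν : ℕ → ℝ} {K : ℝ} (ha : Summable fun k => |a k|)
    (hb : Summable fun k => |b k|) (hν : ∀ k, |ν k| ≤ K) :
    ev ν (fun k => a k - b k) = ev ν a - ev ν b := by
  have h := (hasSum_ev ha hν).sub (hasSum_ev hb hν)
  have e : (fun k => (a k - b k) * ν k) = fun k => a k * ν k - b k * ν k := by
    funext k; ring
  unfold ev
  rw [e]
  exact h.tsum_eq

theorem ev_sum {κ : Type*} (s : Finset κ) {a : κ → ℕ → ℝ} {ν : ℕ → ℝ} {K : ℝ}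
    (ha : ∀ i ∈ s, Summable fun k => |a i k|) (hν : ∀ k, |ν k| ≤ K) :
    ev ν (fun k => ∑ i ∈ s, a i k) = ∑ i ∈ s, ev ν (a i) := by
  have h := hasSum_sum (s := s) fun i hi => hasSum_ev (ha i hi) hν
  have e : (fun k => (∑ i ∈ s, a i k) * ν k) = fun k => ∑ i ∈ s, a i k * ν k := by
    funext k; rw [Finset.sum_mul]
  unfold ev
  rw [e]
  exact h.tsum_eq

namespace PS

variable {a b : ℕ → ℝ} {f g : ℝ → ℝ}

theorem congr (h : PS a f) (hfg : ∀ c : ℝ, |c| ≤ 1 → f c = g c) : PS a g :=
  ⟨h.sum, fun c hc => hfg c hc ▸ h.has c hc⟩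

theorem add (h : PS a f) (h' : PS b g) : PS (fun k => a k + b k) (fun c => f c + g c) := by
  refine ⟨?_, fun c hc => ?_⟩
  · apply Summable.of_nonneg_of_le (fun _ => abs_nonneg _) (fun k => abs_add_le _ _)
      (h.sum.add h'.sum)
  · refine ((h.has c hc).add (h'.has c hc)).congr_fun ?_
    intro k; ring

theorem smul (h : PS a f) (r : ℝ) : PS (fun k => r * a k) (fun c => r * f c) := by
  refine ⟨?_, fun c hc => ?_⟩
  · have := h.sum.mul_left |r|
    refine this.congr ?_
    intro k; rw [abs_mul]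
  · refine ((h.has c hc).mul_left r).congr_fun ?_
    intro k; ring

theorem sub (h : PS a f) (h' : PS b g) : PS (fun k => a k - b k) (fun c => f c - g c) := by
  have := h.add (h'.smul (-1))
  have e1 : (fun k => a k + -1 * b k) = fun k => a k - b k := by funext k; ring
  have e2 : (fun c => f c + -1 * g c) = fun c => f c - g c := by funext k; ring
  rwa [e1, e2] at this

theorem zero : PS (fun _ => 0) (fun _ => 0) :=
  ⟨by simp, fun c _ => by simp⟩

theorem finsetSum {κ : Type*} (s : Finset κ) {a : κ → ℕ → ℝ} {f : κ → ℝ → ℝ}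
    (h : ∀ i ∈ s, PS (a i) (f i)) : PS (fun k => ∑ i ∈ s, a i k) (fun c => ∑ i ∈ s, f i c) := by
  classical
  induction s using Finset.induction_on with
  | empty => simpa using zero
  | insert i s hi ih =>
    have h1 := (h i (Finset.mem_insert_self i s)).add
      (ih fun j hj => h j (Finset.mem_insert_of_mem hj))
    simpa only [Finset.sum_insert hi] using h1

/-- the coefficients are determined by the values on a neighbourhood of `0` -/
theorem hasFPowerSeriesOnBall (h : PS a f) :
    HasFPowerSeriesOnBall f (FormalMultilinearSeries.ofScalars ℝ a) 0 1 := by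
  refine ⟨?_, by norm_num, ?_⟩
  · have h1 : Summable fun n =>
        ‖FormalMultilinearSeries.ofScalars ℝ a n‖ * ((1 : NNReal) : ℝ) ^ n := by
      refine h.sum.congr fun n => ?_
      rw [NNReal.coe_one, one_pow, mul_one, FormalMultilinearSeries.ofScalars_norm,
        Real.norm_eq_abs]
    have := FormalMultilinearSeries.le_radius_of_summable_norm _ h1
    simpa using this
  · intro y hy
    have hy' : |y| < 1 := by
      simpa [enorm_eq_nnnorm] using! hy
    have := h.has y hy'.le
    simpa [FormalMultilinearSeries.ofScalars_apply_eq, smul_eq_mul, mul_comm] using this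

theorem unique (h : PS a f) (h' : PS b g) (hfg : ∀ c : ℝ, |c| < 1 → f c = g c) : a = b := by
  have h1 := h.hasFPowerSeriesOnBall.hasFPowerSeriesAt
  have h2 := h'.hasFPowerSeriesOnBall.hasFPowerSeriesAt
  have h3 : f =ᶠ[𝓝 0] g := by
    filter_upwards [Metric.ball_mem_nhds (0 : ℝ) one_pos] with c hc
    apply hfg
    simpa using hc
  have h4 := (h1.congr h3).eq_formalMultilinearSeries h2
  rwa [FormalMultilinearSeries.ofScalars_series_eq_iff] at h4

theorem norm_sum (h : PS a f) : Summable fun k => ‖a k‖ := h.sum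

/-- Cauchy product -/
noncomputable def conv (a b : ℕ → ℝ) (n : ℕ) : ℝ :=
  ∑ kl ∈ Finset.HasAntidiagonal.antidiagonal n, a kl.1 * b kl.2

theorem mul (h : PS a f) (h' : PS b g) : PS (conv a b) (fun c => f c * g c) := by
  refine ⟨?_, fun c hc => ?_⟩
  · exact summable_norm_sum_mul_antidiagonal_of_summable_norm h.norm_sum h'.norm_sum
  · have hs : ∀ {a : ℕ → ℝ} {f : ℝ → ℝ}, PS a f → Summable fun k => ‖a k * c ^ k‖ := by
      intro a f h
      apply Summable.of_nonneg_of_le (fun _ => norm_nonneg _) (fun k => ?_) h.sum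
      rw [Real.norm_eq_abs, abs_mul, abs_pow]
      exact mul_le_of_le_one_right (abs_nonneg _) (pow_le_one₀ (abs_nonneg _) hc)
    have h1 := tsum_mul_tsum_eq_tsum_sum_antidiagonal_of_summable_norm (hs h) (hs h')
    have h2 := summable_norm_sum_mul_antidiagonal_of_summable_norm (hs h) (hs h')
    rw [(h.has c hc).tsum_eq, (h'.has c hc).tsum_eq] at h1
    rw [h1]
    have e : (fun n => ∑ kl ∈ Finset.HasAntidiagonal.antidiagonal n, a kl.1 * c ^ kl.1 * (b kl.2 * c ^ kl.2)) =
        fun n => conv a b n * c ^ n := by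
      funext n
      unfold conv
      rw [Finset.sum_mul]
      apply Finset.sum_congr rfl
      intro kl hkl
      rw [← Finset.HasAntidiagonal.mem_antidiagonal.1 hkl, pow_add]
      ring
    have h3 := h2.of_norm
    rw [e] at h3 ⊢
    exact h3.hasSum

theorem N1_conv_le (ha : Summable fun k => |a k|) (hb : Summable fun k => |b k|) :
    N1 (conv a b) ≤ N1 a * N1 b := by
  have ha' : Summable fun k => ‖|a k|‖ := by simpa using ha
  have hb' : Summable fun k => ‖|b k|‖ := by simpa using hb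
  have ha2 : Summable fun k => ‖a k‖ := ha
  have hb2 : Summable fun k => ‖b k‖ := hb
  have h4 : Summable fun n => |conv a b n| :=
    summable_norm_sum_mul_antidiagonal_of_summable_norm ha2 hb2
  have h5 : Summable fun n => ∑ kl ∈ Finset.HasAntidiagonal.antidiagonal n, |a kl.1| * |b kl.2| :=
    (summable_norm_sum_mul_antidiagonal_of_summable_norm ha' hb').of_norm
  unfold N1
  rw [tsum_mul_tsum_eq_tsum_sum_antidiagonal_of_summable_norm ha' hb']
  refine h4.tsum_le_tsum (fun n => ?_) h5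
  unfold conv
  refine (Finset.abs_sum_le_sum_abs _ _).trans_eq ?_
  apply Finset.sum_congr rfl
  intro kl _
  rw [abs_mul]

end PS

theorem N1_add_le {a b : ℕ → ℝ} (ha : Summable fun k => |a k|) (hb : Summable fun k => |b k|) :
    N1 (fun k => a k + b k) ≤ N1 a + N1 b := by
  unfold N1
  rw [← ha.tsum_add hb]
  apply Summable.tsum_le_tsum (fun k => abs_add_le _ _) _ (ha.add hb)
  exact Summable.of_nonneg_of_le (fun _ => abs_nonneg _) (fun k => abs_add_le _ _) (ha.add hb)

theorem N1_smul (r : ℝ) (a : ℕ → ℝ) : N1 (fun k => r * a k) = |r| * N1 a := by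
  unfold N1
  rw [← tsum_mul_left]
  congr 1
  funext k
  rw [abs_mul]

theorem N1_sub_le {a b : ℕ → ℝ} (ha : Summable fun k => |a k|) (hb : Summable fun k => |b k|) :
    N1 (fun k => a k - b k) ≤ N1 a + N1 b := by
  unfold N1
  rw [← ha.tsum_add hb]
  apply Summable.tsum_le_tsum (fun k => abs_sub _ _) _ (ha.add hb)
  exact Summable.of_nonneg_of_le (fun _ => abs_nonneg _) (fun k => abs_sub _ _) (ha.add hb)

theorem N1_sum_le {κ : Type*} (s : Finset κ) {a : κ → ℕ → ℝ}
    (ha : ∀ i ∈ s, Summable fun k => |a i k|) :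
    N1 (fun k => ∑ i ∈ s, a i k) ≤ ∑ i ∈ s, N1 (a i) := by
  classical
  unfold N1
  rw [← Summable.tsum_finsetSum ha]
  apply Summable.tsum_le_tsum (fun k => Finset.abs_sum_le_sum_abs _ _) _ (summable_sum ha)
  exact Summable.of_nonneg_of_le (fun _ => abs_nonneg _)
    (fun k => Finset.abs_sum_le_sum_abs _ _) (summable_sum ha)

/-! ### parameter integrals -/

section Integral

variable {α : Type*} [MeasurableSpace α] {μ : Measure α}

theorem integral_aux {a : α → ℕ → ℝ} {g : α → ℝ}
    (hs : ∀ᵐ s ∂μ, Summable fun k => |a s k|)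
    (hm : ∀ k, AEStronglyMeasurable (fun s => a s k) μ) (hg : Integrable g μ)
    (hb : ∀ᵐ s ∂μ, N1 (a s) ≤ g s) :
    (∀ k, Integrable (fun s => a s k) μ) ∧ Summable fun k => ∫ s, |a s k| ∂μ := by
  have h1 : ∀ k, Integrable (fun s => a s k) μ := by
    intro k
    apply hg.mono' (hm k)
    filter_upwards [hs, hb] with s h1 h2
    exact (h1.le_tsum k fun _ _ => abs_nonneg _).trans h2
  refine ⟨h1, ?_⟩
  apply summable_of_sum_le (c := ∫ s, g s ∂μ) (fun k => integral_nonneg fun _ => abs_nonneg _)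
  intro u
  rw [← integral_finsetSum _ fun k _ => (h1 k).abs]
  apply integral_mono_ae (integrable_finsetSum _ fun k _ => (h1 k).abs) hg
  filter_upwards [hs, hb] with s h1 h2
  exact (h1.sum_le_tsum u fun _ _ => abs_nonneg _).trans h2

/-- integration of a family of power series -/
theorem PS.integral {a : α → ℕ → ℝ} {f : α → ℝ → ℝ} {g : α → ℝ}
    (hPS : ∀ᵐ s ∂μ, PS (a s) (f s))
    (hm : ∀ k, AEStronglyMeasurable (fun s => a s k) μ) (hg : Integrable g μ)
    (hb : ∀ᵐ s ∂μ, N1 (a s) ≤ g s) :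
    PS (fun k => ∫ s, a s k ∂μ) (fun c => ∫ s, f s c ∂μ) := by
  obtain ⟨h1, h2⟩ := integral_aux (hPS.mono fun _ h => h.sum) hm hg hb
  refine ⟨?_, fun c hc => ?_⟩
  · apply Summable.of_nonneg_of_le (fun _ => abs_nonneg _) (fun k => ?_) h2
    exact abs_integral_le_integral_abs
  · have hle : ∀ (s : α) (k : ℕ), |a s k * c ^ k| ≤ |a s k| := by
      intro s k
      rw [abs_mul, abs_pow]
      exact mul_le_of_le_one_right (abs_nonneg _) (pow_le_one₀ (abs_nonneg _) hc)
    have h3 : HasSum (fun k => ∫ s, a s k * c ^ k ∂μ) (∫ s, ∑' k, a s k * c ^ k ∂μ) := by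
      apply hasSum_integral_of_summable_integral_norm
      · intro k
        exact (h1 k).mul_const _
      · apply Summable.of_nonneg_of_le (fun k => integral_nonneg fun _ => norm_nonneg _)
          (fun k => ?_) h2
        exact integral_mono ((h1 k).mul_const _).norm (h1 k).abs fun s => hle s k
    have h4 : (∫ s, ∑' k, a s k * c ^ k ∂μ) = ∫ s, f s c ∂μ := by
      apply integral_congr_ae
      filter_upwards [hPS] with s hs
      exact (hs.has c hc).tsum_eq
    rw [h4] at h3
    refine h3.congr_fun fun k => ?_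
    rw [integral_mul_const]

theorem ev_integral {a : α → ℕ → ℝ} {g : α → ℝ} {ν : ℕ → ℝ} {K : ℝ}
    (hs : ∀ᵐ s ∂μ, Summable fun k => |a s k|)
    (hm : ∀ k, AEStronglyMeasurable (fun s => a s k) μ) (hg : Integrable g μ)
    (hb : ∀ᵐ s ∂μ, N1 (a s) ≤ g s) (hν : ∀ k, |ν k| ≤ K) :
    ev ν (fun k => ∫ s, a s k ∂μ) = ∫ s, ev ν (a s) ∂μ := by
  obtain ⟨h1, h2⟩ := integral_aux hs hm hg hb
  have hle : ∀ (s : α) (k : ℕ), |a s k * ν k| ≤ |a s k| * K := by
    intro s k
    rw [abs_mul]
    exact mul_le_mul_of_nonneg_left (hν k) (abs_nonneg _)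
  have h3 : HasSum (fun k => ∫ s, a s k * ν k ∂μ) (∫ s, ∑' k, a s k * ν k ∂μ) := by
    apply hasSum_integral_of_summable_integral_norm
    · intro k
      exact (h1 k).mul_const _
    · apply Summable.of_nonneg_of_le (fun k => integral_nonneg fun _ => norm_nonneg _)
        (fun k => ?_) (h2.mul_right K)
      rw [← integral_mul_const]
      exact integral_mono ((h1 k).mul_const _).norm ((h1 k).abs.mul_const _) fun s => hle s k
  unfold ev
  rw [← h3.tsum_eq]
  congr 1
  funext k
  rw [integral_mul_const]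

/-- the pairing is measurable and integrable in the parameter -/
theorem integrable_ev {a : α → ℕ → ℝ} {g : α → ℝ} {ν : ℕ → ℝ} {K : ℝ}
    (hs : ∀ᵐ s ∂μ, Summable fun k => |a s k|)
    (hm : ∀ k, AEStronglyMeasurable (fun s => a s k) μ) (hg : Integrable g μ)
    (hb : ∀ᵐ s ∂μ, N1 (a s) ≤ g s) (hν : ∀ k, |ν k| ≤ K) :
    Integrable (fun s => ev ν (a s)) μ := by
  obtain ⟨h1, h2⟩ := integral_aux hs hm hg hb
  have hK : 0 ≤ K := (abs_nonneg _).trans (hν 0)
  apply (hg.const_mul K).mono'
  · apply aestronglyMeasurable_of_tendsto_ae (u := atTop)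
      (f := fun (n : ℕ) (s : α) => ∑ k ∈ Finset.range n, a s k * ν k)
    · intro n
      exact Finset.aestronglyMeasurable_fun_sum _ fun k _ => (hm k).mul_const _
    · filter_upwards [hs] with s h
      exact (hasSum_ev h hν).tendsto_sum_nat
  · filter_upwards [hs, hb] with s h3 h4
    rw [Real.norm_eq_abs]
    exact (abs_ev_le h3 hν).trans (mul_le_mul_of_nonneg_left h4 hK)

end Integral

/-! ### countable sums -/

theorem tsum_aux {a : ℕ → ℕ → ℝ} (hs : ∀ n, Summable fun k => |a n k|)
    (hN : Summable fun n => N1 (a n)) : Summable fun p : ℕ × ℕ => |a p.1 p.2| := by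
  rw [summable_prod_of_nonneg (fun _ => abs_nonneg _)]
  exact ⟨hs, hN⟩

theorem PS.tsum {a : ℕ → ℕ → ℝ} {f : ℕ → ℝ → ℝ} (h : ∀ n, PS (a n) (f n))
    (hN : Summable fun n => N1 (a n)) :
    PS (fun k => ∑' n, a n k) (fun c => ∑' n, f n c) := by
  have h0 := tsum_aux (fun n => (h n).sum) hN
  have hcol : ∀ k, Summable fun n => |a n k| := by
    intro k
    exact h0.comp_injective (i := fun n : ℕ => (n, k)) fun x y hxy => (Prod.mk.inj hxy).1
  have hcs : Summable fun k => ∑' n, |a n k| := by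
    have h1 : Summable fun p : ℕ × ℕ => |a p.2 p.1| :=
      h0.comp_injective (i := Prod.swap) Prod.swap_injective
    exact ((summable_prod_of_nonneg (fun _ => abs_nonneg _)).1 h1).2
  refine ⟨?_, fun c hc => ?_⟩
  · apply Summable.of_nonneg_of_le (fun _ => abs_nonneg _) (fun k => ?_) hcs
    rw [← Real.norm_eq_abs]
    exact tsum_of_norm_bounded (hcol k).hasSum fun n => le_rfl
  · have h1 : Summable fun p : ℕ × ℕ => a p.1 p.2 * c ^ p.2 := by
      apply Summable.of_norm_bounded h0
      intro p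
      rw [Real.norm_eq_abs, abs_mul, abs_pow]
      exact mul_le_of_le_one_right (abs_nonneg _) (pow_le_one₀ (abs_nonneg _) hc)
    have h2 := h1.tsum_comm (f := fun (n k : ℕ) => a n k * c ^ k)
    have e1 : (∑' n, f n c) = ∑' n, ∑' k, a n k * c ^ k := by
      congr 1; funext n; exact ((h n).has c hc).tsum_eq.symm
    have e2 : (∑' k, ∑' n, a n k * c ^ k) = ∑' k, (∑' n, a n k) * c ^ k := by
      congr 1; funext k; rw [tsum_mul_right]
    rw [e1, ← h2, e2]
    apply Summable.hasSum
    apply Summable.of_norm_bounded hcs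
    intro k
    rw [Real.norm_eq_abs, abs_mul, abs_pow]
    refine (mul_le_of_le_one_right (abs_nonneg _) (pow_le_one₀ (abs_nonneg _) hc)).trans ?_
    rw [← Real.norm_eq_abs]
    exact tsum_of_norm_bounded (hcol k).hasSum fun n => le_rfl

theorem hasSum_ev_tsum {a : ℕ → ℕ → ℝ} {ν : ℕ → ℝ} {K : ℝ} (hs : ∀ n, Summable fun k => |a n k|)
    (hN : Summable fun n => N1 (a n)) (hν : ∀ k, |ν k| ≤ K) :
    HasSum (fun n => ev ν (a n)) (ev ν (fun k => ∑' n, a n k)) := by
  have h0 := tsum_aux hs hN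
  have h1 : Summable fun p : ℕ × ℕ => a p.1 p.2 * ν p.2 := by
    apply Summable.of_norm_bounded (h0.mul_right K)
    intro p
    rw [Real.norm_eq_abs, abs_mul]
    exact mul_le_mul_of_nonneg_left (hν _) (abs_nonneg _)
  have h2 := h1.tsum_comm (f := fun (n k : ℕ) => a n k * ν k)
  have e2 : (∑' k, ∑' n, a n k * ν k) = ∑' k, (∑' n, a n k) * ν k := by
    congr 1; funext k; rw [tsum_mul_right]
  have h3 : Summable fun n => ev ν (a n) := by
    apply Summable.of_norm_bounded (hN.mul_left K)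
    intro n
    exact abs_ev_le (hs n) hν
  have e3 : ev ν (fun k => ∑' n, a n k) = ∑' n, ev ν (a n) := by
    unfold ev
    rw [← e2, h2]
  rw [e3]
  exact h3.hasSum

/-! ### derivative -/

theorem PS.hasDerivAt {a : ℕ → ℝ} {f : ℝ → ℝ} (h : PS a f) {x : ℝ} (hx : |x| < 1) :
    (Summable fun k : ℕ => (k : ℝ) * a k * x ^ (k - 1)) ∧
      HasDerivAt f (∑' k : ℕ, (k : ℝ) * a k * x ^ (k - 1)) x := by
  obtain ⟨r, hr1, hr2⟩ := exists_between hx
  have hr0 : 0 < r := (abs_nonneg x).trans_lt hr1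
  have hu : Summable fun k : ℕ => |a k| * (k * r ^ (k - 1)) := by
    have h1 : Summable fun k : ℕ => (k : ℝ) * r ^ (k - 1) := by
      have h2 : Summable fun k : ℕ => (k : ℝ) * r ^ k := by
        have := summable_pow_mul_geometric_of_norm_lt_one 1
          (show ‖r‖ < 1 by rw [Real.norm_eq_abs, abs_of_pos hr0]; exact hr2)
        simpa using this
      refine (h2.mul_left r⁻¹).congr fun k => ?_
      rcases k with _ | k
      · simp
      · rw [Nat.add_sub_cancel, pow_succ]
        field_simp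
    obtain ⟨M, hM⟩ : ∃ M, ∀ k : ℕ, (k : ℝ) * r ^ (k - 1) ≤ M := by
      obtain ⟨M, hM⟩ := h1.tendsto_atTop_zero.bddAbove_range
      exact ⟨M, fun k => hM ⟨k, rfl⟩⟩
    apply Summable.of_nonneg_of_le (fun k => by positivity) (fun k => ?_) (h.sum.mul_right M)
    exact mul_le_mul_of_nonneg_left (hM k) (abs_nonneg _)
  have hb : ∀ (k : ℕ) (y : ℝ), y ∈ Metric.ball (0 : ℝ) r →
      ‖(k : ℝ) * a k * y ^ (k - 1)‖ ≤ |a k| * (k * r ^ (k - 1)) := by
    intro k y hy
    have hy' : |y| ≤ r := by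
      have : |y| < r := by simpa using hy
      exact this.le
    rw [Real.norm_eq_abs, abs_mul, abs_mul, abs_pow, Nat.abs_cast]
    calc (k : ℝ) * |a k| * |y| ^ (k - 1) ≤ (k : ℝ) * |a k| * r ^ (k - 1) := by gcongr
      _ = _ := by ring
  have hxr : x ∈ Metric.ball (0 : ℝ) r := by simpa using hr1
  refine ⟨Summable.of_norm_bounded hu fun k => hb k x hxr, ?_⟩
  have h3 := hasDerivAt_tsum_of_isPreconnected (g := fun k y => a k * y ^ k)
    (g' := fun (k : ℕ) y => (k : ℝ) * a k * y ^ (k - 1)) hu Metric.isOpen_ball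
    (convex_ball (0 : ℝ) r).isPreconnected
    (fun k y _ => by
      have := (hasDerivAt_pow k y).const_mul (a k)
      exact this.congr_deriv (by ring)) hb hxr ((h.has x hx.le).summable) hxr
  apply h3.congr_of_eventuallyEq
  filter_upwards [Metric.isOpen_ball.mem_nhds hxr] with y hy
  have hy' : |y| < r := by simpa using hy
  exact ((h.has y (hy'.trans hr2).le).tsum_eq).symm

/-! ### the binomial series -/

/-- generalised binomial coefficient -/
noncomputable def bin (p : ℝ) (k : ℕ) : ℝ := (∏ j ∈ Finset.range k, (p - j)) / (k.factorial : ℝ)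

theorem bin_zero (p : ℝ) : bin p 0 = 1 := by simp [bin]

theorem bin_succ (p : ℝ) (k : ℕ) : bin p (k + 1) = bin p k * (p - k) / (k + 1) := by
  unfold bin
  rw [Finset.prod_range_succ, Nat.factorial_succ]
  push_cast
  have : ((k.factorial : ℕ) : ℝ) ≠ 0 := by exact_mod_cast Nat.factorial_ne_zero k
  have h2 : (k : ℝ) + 1 ≠ 0 := by positivity
  field_simp

theorem bin_succ' (p : ℝ) (k : ℕ) : ((k : ℝ) + 1) * bin p (k + 1) = p * bin (p - 1) k := by
  unfold bin
  rw [Finset.prod_range_succ', Nat.factorial_succ]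
  push_cast
  have : ((k.factorial : ℕ) : ℝ) ≠ 0 := by exact_mod_cast Nat.factorial_ne_zero k
  have h2 : (k : ℝ) + 1 ≠ 0 := by positivity
  have e : ∏ j ∈ Finset.range k, (p - 1 - (j : ℝ)) = ∏ j ∈ Finset.range k, (p - ((j : ℝ) + 1)) := by
    apply Finset.prod_congr rfl
    intro j _
    ring
  rw [e]
  field_simp
  ring

theorem bin_eq_choose (p : ℝ) (k : ℕ) : bin p k = Ring.choose p k := by
  have h1 : ∀ k : ℕ, (descPochhammer ℤ k).smeval p = ∏ j ∈ Finset.range k, (p - j) := by
    intro k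
    induction k with
    | zero => simp
    | succ k ih =>
      rw [Finset.prod_range_succ, ← ih]
      simp [descPochhammer_succ_right, Polynomial.smeval_mul, Polynomial.smeval_natCast]
  rw [Ring.choose_eq_smul, h1]
  unfold bin
  rw [smul_eq_mul]
  ring

theorem bin_hasSum (p : ℝ) {x : ℝ} (hx : |x| < 1) :
    (Summable fun k => |bin p k * x ^ k|) ∧ HasSum (fun k => bin p k * x ^ k) ((1 + x) ^ p) := by
  have h1 := Real.one_add_rpow_hasFPowerSeriesOnBall_zero (a := p)
  have hx' : x ∈ Metric.eball (0 : ℝ) 1 := by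
    simpa [enorm_eq_nnnorm] using! hx
  have e : ∀ k : ℕ, (binomialSeries ℝ p k) (fun _ => x) = bin p k * x ^ k := by
    intro k
    rw [binomialSeries_apply, bin_eq_choose]
    simp
  refine ⟨?_, ?_⟩
  · have h2 := FormalMultilinearSeries.summable_norm_apply (binomialSeries ℝ p)
      (x := x) (Metric.eball_subset_eball h1.r_le hx')
    refine h2.congr fun k => ?_
    rw [e, Real.norm_eq_abs]
  · have h3 := h1.hasSum hx'
    simp only [zero_add] at h3
    refine h3.congr_fun fun k => ?_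
    rw [← e]

theorem PS_bin (p : ℝ) {x : ℝ} (hx : |x| < 1) :
    PS (fun k => bin p k * x ^ k) (fun c => (1 + x * c) ^ p) := by
  refine ⟨(bin_hasSum p hx).1, fun c hc => ?_⟩
  have : |x * c| < 1 := by
    rw [abs_mul]
    exact (mul_le_of_le_one_right (abs_nonneg _) hc).trans_lt hx
  refine (bin_hasSum p this).2.congr_fun fun k => ?_
  rw [mul_pow]
  ring

theorem abs_bin_of_nonpos {r : ℝ} (hr : r ≤ 0) (k : ℕ) : |bin r k| = (-1) ^ k * bin r k := by
  have h : 0 ≤ (-1 : ℝ) ^ k * bin r k := by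
    induction k with
    | zero => simp [bin_zero]
    | succ k ih =>
      have e : (-1 : ℝ) ^ (k + 1) * bin r (k + 1) =
          ((-1) ^ k * bin r k) * ((k - r) / (k + 1)) := by
        rw [bin_succ, pow_succ]
        have h2 : (k : ℝ) + 1 ≠ 0 := by positivity
        field_simp
        ring
      rw [e]
      have : (0 : ℝ) ≤ k := Nat.cast_nonneg k
      exact mul_nonneg ih (div_nonneg (by linarith) (by linarith))
  rcases neg_one_pow_eq_or ℝ k with h1 | h1
  · rw [h1, one_mul] at h ⊢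
    exact abs_of_nonneg h
  · rw [h1] at h ⊢
    rw [abs_of_nonpos (by linarith)]
    ring

theorem N1_bin_of_nonpos {r : ℝ} (hr : r ≤ 0) {x : ℝ} (hx : |x| < 1) :
    N1 (fun k => bin r k * x ^ k) = (1 - |x|) ^ r := by
  have h1 : |(-(|x|))| < 1 := by rwa [abs_neg, abs_abs]
  have h2 := (bin_hasSum r h1).2
  unfold N1
  rw [show 1 - |x| = 1 + -|x| by ring, ← h2.tsum_eq]
  congr 1
  funext k
  rw [abs_mul, abs_bin_of_nonpos hr, abs_pow]
  have : (-|x|) ^ k = (-1) ^ k * |x| ^ k := by rw [← mul_pow]; ring_nf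
  rw [this]
  ring

end Pool.Agent.GC
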