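import Pool.Agent.Lib_helper92.GC34.M1

/-!
# RID in coefficient form
-/

open scoped BigOperators ComplexOrder Kronecker MatrixOrder Topology
open MeasureTheory Matrix Filter

namespace Pool.Agent.GC

open Pool.Agent.RC

variable {ι κ : Type} [Fintype ι] [DecidableEq ι] [Fintype κ] [DecidableEq κ]

theorem trF_pos_smul {p a : ℝ} (ha : 0 < a) {X : Matrix ι ι ℂ} (hX : X.PosSemidef) :
    trF (fun y => y ^ p) (a • X) = a ^ p * trF (fun y => y ^ p) X := by
  obtain ⟨U, c, hU, hU', hc, hXe⟩ := Lib_helper98.Renyi.exists_spectral_nonneg hX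
  have e1 : a • X = U * Matrix.diagonal (fun i => ((a * c i : ℝ) : ℂ)) * Uᴴ := by
    rw [hXe]
    have e2 : Matrix.diagonal (fun i => ((a * c i : ℝ) : ℂ)) =
        a • Matrix.diagonal (fun i => ((c i : ℝ) : ℂ)) := by
      ext i j
      by_cases hij : i = j
      · subst hij
        simp
      · simp [hij]
    rw [e2, Matrix.mul_smul, Matrix.smul_mul]
  rw [e1, TRF.trF_conj _ hU]
  conv_rhs => rw [hXe]
  rw [TRF.trF_conj _ hU, Finset.mul_sum]
  apply Finset.sum_congr rfl
  intro i _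
  exact Real.mul_rpow ha.le (hc i)

/-- coefficients of `(u + w c) ^ r` -/
noncomputable def bu (r u w : ℝ) (k : ℕ) : ℝ := u ^ r * (bin r k * (w / u) ^ k)

theorem abs_div_lt {u w : ℝ} (hu : |w| < u) : |w / u| < 1 := by
  have h0 : 0 < u := (abs_nonneg w).trans_lt hu
  rw [abs_div, abs_of_pos h0, div_lt_one h0]
  exact hu

theorem PS_bu (r : ℝ) {u w : ℝ} (hu : |w| < u) : PS (bu r u w) (fun c => (u + w * c) ^ r) := by
  have h0 : 0 < u := (abs_nonneg w).trans_lt hu
  have h1 := abs_div_lt hu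
  refine ((PS_bin r h1).smul (u ^ r)).congr fun c hc => ?_
  have h2 : 0 ≤ 1 + w / u * c := by
    have h3 : |w / u * c| ≤ 1 := by
      rw [abs_mul]
      calc |w / u| * |c| ≤ 1 * 1 := mul_le_mul h1.le hc (abs_nonneg _) zero_le_one
        _ = 1 := one_mul 1
    linarith [(abs_le.1 h3).1]
  rw [← Real.mul_rpow h0.le h2]
  congr 1
  field_simp

theorem N1_bu {r : ℝ} (hr : r ≤ 0) {u w : ℝ} (hu : |w| < u) : N1 (bu r u w) = (u - |w|) ^ r := by
  have h0 : 0 < u := (abs_nonneg w).trans_lt hu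
  have h1 := abs_div_lt hu
  have e : bu r u w = fun k => u ^ r * (bin r k * (w / u) ^ k) := rfl
  rw [e, N1_smul, N1_bin_of_nonpos hr h1, abs_of_pos (Real.rpow_pos_of_pos h0 r),
    ← Real.mul_rpow h0.le (by linarith [h1.le])]
  congr 1
  rw [abs_div, abs_of_pos h0]
  field_simp

/-- coefficients of `1 + l c` -/
noncomputable def li (l : ℝ) : ℕ → ℝ
  | 0 => 1
  | 1 => l
  | _ + 2 => 0

theorem PS_li (l : ℝ) : PS (li l) (fun c => 1 + l * c) := by
  have h0 : ∀ k, k ∉ Finset.range 2 → li l k = 0 := by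
    intro k hk
    rcases k with _ | _ | k
    · simp at hk
    · simp at hk
    · rfl
  refine ⟨?_, fun c _ => ?_⟩
  · apply summable_of_ne_finset_zero (s := Finset.range 2)
    intro k hk
    rw [h0 k hk, abs_zero]
  · have h1 : HasSum (fun k => li l k * c ^ k) (∑ k ∈ Finset.range 2, li l k * c ^ k) :=
      hasSum_sum_of_ne_finset_zero (fun k hk => by rw [h0 k hk, zero_mul])
    rw [Finset.sum_range_succ, Finset.sum_range_one] at h1
    simpa [li] using h1

theorem N1_li (l : ℝ) : N1 (li l) = 1 + |l| := by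
  have h0 : ∀ k, k ∉ Finset.range 2 → |li l k| = 0 := by
    intro k hk
    rcases k with _ | _ | k
    · simp at hk
    · simp at hk
    · simp [li]
  unfold N1
  rw [tsum_eq_sum h0, Finset.sum_range_succ, Finset.sum_range_one]
  simp [li]

/-- coefficients of `(1 + l c) ^ n` -/
noncomputable def pw (l : ℝ) : ℕ → ℕ → ℝ
  | 0 => li 0
  | n + 1 => PS.conv (li l) (pw l n)

theorem PS_pw (l : ℝ) (n : ℕ) : PS (pw l n) (fun c => (1 + l * c) ^ n) := by
  induction n with
  | zero =>
    refine (PS_li 0).congr fun c _ => ?_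
    simp
  | succ n ih =>
    refine ((PS_li l).mul ih).congr fun c _ => ?_
    rw [pow_succ]
    ring

theorem N1_pw (l : ℝ) (n : ℕ) : N1 (pw l n) ≤ (1 + |l|) ^ n := by
  induction n with
  | zero =>
    show N1 (li 0) ≤ _
    rw [N1_li]
    simp
  | succ n ih =>
    refine (PS.N1_conv_le (PS_li l).sum (PS_pw l n).sum).trans ?_
    rw [N1_li, pow_succ, mul_comm]
    exact mul_le_mul_of_nonneg_right ih (by positivity)

/-- coefficients of `(1 + l c)^n (u + w c)^(p-n)` -/
noncomputable def sn (p l u w : ℝ) (n : ℕ) : ℕ → ℝ := PS.conv (pw l n) (bu (p - n) u w)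

theorem PS_sn (p l : ℝ) {u w : ℝ} (hu : |w| < u) (n : ℕ) :
    PS (sn p l u w n) (fun c => (1 + l * c) ^ n * (u + w * c) ^ (p - n)) :=
  (PS_pw l n).mul (PS_bu (p - n) hu)

theorem N1_sn {p : ℝ} (l : ℝ) {u w : ℝ} (hu : |w| < u) {n : ℕ} (hn : p ≤ n) :
    N1 (sn p l u w n) ≤ (1 + |l|) ^ n * (u - |w|) ^ (p - n) := by
  refine (PS.N1_conv_le (PS_pw l n).sum (PS_bu (p - n) hu).sum).trans ?_
  rw [N1_bu (by linarith) hu]
  exact mul_le_mul_of_nonneg_right (N1_pw l n)
    (Real.rpow_nonneg (by linarith) _)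

/-- the expansion in `δ` for real `c` -/
theorem hasSum_delta (p : ℝ) {l u w δ c : ℝ} (hδ : |δ| * (1 + |l|) < u - |w|)
    (hc : |c| ≤ 1) :
    HasSum (fun n : ℕ => bin p n * δ ^ n * ((1 + l * c) ^ n * (u + w * c) ^ (p - n)))
      ((u + δ + (w + δ * l) * c) ^ p) := by
  have hu : |w| < u := by
    have : 0 ≤ |δ| * (1 + |l|) := by positivity
    linarith
  have h1 : u - |w| ≤ u + w * c := by
    have : |w * c| ≤ |w| := by
      rw [abs_mul]; exact mul_le_of_le_one_right (abs_nonneg _) hc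
    linarith [(abs_le.1 this).1]
  have h2 : 0 < u + w * c := by linarith [abs_nonneg w]
  set y : ℝ := δ * (1 + l * c) / (u + w * c) with hy
  have hy1 : |y| < 1 := by
    rw [hy, abs_div, abs_of_pos h2, div_lt_one h2, abs_mul]
    have h3 : |1 + l * c| ≤ 1 + |l| := by
      calc |1 + l * c| ≤ |1| + |l * c| := abs_add_le _ _
        _ ≤ 1 + |l| := by
          rw [abs_one, abs_mul]
          linarith [mul_le_of_le_one_right (abs_nonneg l) hc]
    calc |δ| * |1 + l * c| ≤ |δ| * (1 + |l|) := mul_le_mul_of_nonneg_left h3 (abs_nonneg _)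
      _ < u - |w| := hδ
      _ ≤ _ := h1
  have h3 := (bin_hasSum p hy1).2.mul_left ((u + w * c) ^ p)
  have h4 : 0 ≤ 1 + y := by linarith [(abs_lt.1 hy1).1]
  have e1 : (u + w * c) ^ p * (1 + y) ^ p = (u + δ + (w + δ * l) * c) ^ p := by
    rw [← Real.mul_rpow h2.le h4]
    congr 1
    rw [hy]
    field_simp
    ring
  rw [e1] at h3
  refine h3.congr_fun fun n => ?_
  rw [Real.rpow_sub h2, Real.rpow_natCast, hy, div_pow, mul_pow]
  have h5 : (u + w * c) ^ n ≠ 0 := (pow_pos h2 n).ne'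
  field_simp

theorem hasSum_ev_delta {p : ℝ} (h4 : p < 4) {l u w δ : ℝ} (hδ : |δ| * (1 + |l|) < u - |w|)
    {ν : ℕ → ℝ} {K : ℝ} (hν : ∀ k, |ν k| ≤ K) :
    (Summable fun n : ℕ => |bin p n * δ ^ n * ev ν (sn p l u w n)|) ∧
    HasSum (fun n : ℕ => bin p n * δ ^ n * ev ν (sn p l u w n))
      (ev ν (bu p (u + δ) (w + δ * l))) := by
  have hl0 : 0 < 1 + |l| := by positivity
  have hd0 : 0 ≤ |δ| * (1 + |l|) := by positivity
  have hu : |w| < u := by linarith
  have hu' : |w + δ * l| < u + δ := by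
    have h1 : |w + δ * l| ≤ |w| + |δ| * |l| := by
      rw [← abs_mul]; exact abs_add_le _ _
    have h2 : -|δ| ≤ δ := neg_abs_le δ
    nlinarith
  set a : ℕ → ℕ → ℝ := fun n k => bin p n * δ ^ n * sn p l u w n k with ha
  have hPS : ∀ n, PS (a n) (fun c => bin p n * δ ^ n * ((1 + l * c) ^ n * (u + w * c) ^ (p - n))) :=
    fun n => (PS_sn p l hu n).smul (bin p n * δ ^ n)
  have hK : 0 ≤ K := (abs_nonneg _).trans (hν 0)
  have hN : Summable fun n => N1 (a n) := by
    rw [← summable_nat_add_iff 4]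
    have hθ : |(|δ| * (1 + |l|) / (u - |w|))| < 1 := by
      rw [abs_of_nonneg (by apply div_nonneg hd0; linarith), div_lt_one (by linarith)]
      exact hδ
    have h1 := ((bin_hasSum p hθ).1.mul_left ((u - |w|) ^ p))
    have h2 := (summable_nat_add_iff 4).2 h1
    apply Summable.of_nonneg_of_le (fun _ => N1_nonneg _) (fun n => ?_) h2
    have hpn : p ≤ ((n + 4 : ℕ) : ℝ) := by
      push_cast
      have : (0 : ℝ) ≤ n := Nat.cast_nonneg n
      linarith
    have e : N1 (a (n + 4)) = |bin p (n + 4) * δ ^ (n + 4)| * N1 (sn p l u w (n + 4)) :=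
      N1_smul _ _
    rw [e]
    refine (mul_le_mul_of_nonneg_left (N1_sn l hu hpn) (abs_nonneg _)).trans_eq ?_
    have h5 : 0 < u - |w| := by linarith
    rw [Real.rpow_sub h5, Real.rpow_natCast, abs_mul, abs_mul, abs_pow, abs_pow,
      abs_of_nonneg (div_nonneg hd0 h5.le), div_pow, mul_pow]
    ring
  have hsum := PS.tsum hPS hN
  have heq : (fun k => ∑' n, a n k) = bu p (u + δ) (w + δ * l) := by
    apply hsum.unique (PS_bu p hu')
    intro c hc
    exact (hasSum_delta p hδ hc.le).tsum_eq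
  have hev : ∀ n, ev ν (a n) = bin p n * δ ^ n * ev ν (sn p l u w n) := fun n => ev_smul _ _ _
  have h6 := hasSum_ev_tsum (fun n => (hPS n).sum) hN hν
  rw [heq] at h6
  refine ⟨?_, ?_⟩
  · apply Summable.of_nonneg_of_le (fun _ => abs_nonneg _) (fun n => ?_) (hN.mul_left K)
    rw [← hev n]
    exact abs_ev_le (hPS n).sum hν
  · refine h6.congr_fun fun n => ?_
    rw [hev]

/-- positive semidefinite combinations -/
theorem psd_comb {C D : Matrix κ κ ℂ} (h : IsPair C D) {u w : ℝ} (hu : |w| ≤ u) :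
    (u • C + w • D).PosSemidef ∧ (u • C - w • D).PosSemidef := by
  have h1 := abs_le.1 hu
  have h2 : (0 : ℝ) ≤ (u + w) / 2 := by linarith [h1.1]
  have h3 : (0 : ℝ) ≤ (u - w) / 2 := by linarith [h1.2]
  have e1 : u • C + w • D = ((u + w) / 2) • (C + D) + ((u - w) / 2) • (C - D) := by module
  have e2 : u • C - w • D = ((u - w) / 2) • (C + D) + ((u + w) / 2) • (C - D) := by module
  refine ⟨?_, ?_⟩
  · rw [e1]; exact (h.add.smul h2).add (h.sub.smul h3)
  · rw [e2]; exact (h.add.smul h3).add (h.sub.smul h2)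

theorem pd_comb {C D : Matrix κ κ ℂ} (h : IsPair C D) {u w : ℝ} (hu : |w| < u) :
    (u • C + w • D).PosDef ∧ (u • C - w • D).PosDef := by
  have h2 : (0 : ℝ) < u - |w| := by linarith
  have h3 := psd_comb h (le_refl |w|)
  have e1 : u • C + w • D = (u - |w|) • C + (|w| • C + w • D) := by module
  have e2 : u • C - w • D = (u - |w|) • C + (|w| • C - w • D) := by module
  refine ⟨?_, ?_⟩
  · rw [e1]; exact (h.pos.smul h2).add_posSemidef h3.1
  · rw [e2]; exact (h.pos.smul h2).add_posSemidef h3.2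

/-- the functional on `(u + w c)^p` -/
theorem ev_bu {p : ℝ} (h3 : 3 < p) (h4 : p < 4) {C D : Matrix κ κ ℂ} (h : IsPair C D)
    {u w : ℝ} (hu : |w| < u) :
    ev (mu p C D) (bu p u w) =
      (trF (fun y => y ^ p) (u • C + w • D) + trF (fun y => y ^ p) (u • C - w • D)) / 2 := by
  have h0 : 0 < u := (abs_nonneg w).trans_lt hu
  have h1 := abs_div_lt hu
  have h2 := hasSum_M1 (by linarith) h4 h3.ne' h h1.le
  have e : ev (mu p C D) (bu p u w) = u ^ p * Sy p C D (w / u) := by
    have e1 : bu p u w = fun k => u ^ p * (bin p k * (w / u) ^ k) := rfl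
    rw [e1, ev_smul]
    congr 1
    exact h2.tsum_eq
  have e1 : u • C + w • D = u • (C + (w / u) • D) := by
    rw [smul_add, smul_smul, mul_div_cancel₀ _ h0.ne']
  have e2 : u • C - w • D = u • (C - (w / u) • D) := by
    rw [smul_sub, smul_smul, mul_div_cancel₀ _ h0.ne']
  rw [e, e1, e2, trF_pos_smul h0 (posSemidef_add h h1.le),
    trF_pos_smul h0 (posSemidef_sub h h1.le)]
  unfold Sy
  ring

/-- **(T3)** -/
theorem ev_sn_six {p : ℝ} (h3 : 3 < p) (h4 : p < 4) {C D : Matrix κ κ ℂ} (h : IsPair C D)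
    {l u w : ℝ} (hl : |l| ≤ 1) (hu : |w| < u) :
    ev (mu p C D) (sn p l u w 6) =
      (Ts p (u • C + w • D) (C + l • D) 2 + Ts p (u • C - w • D) (C - l • D) 2) / 2 := by
  obtain ⟨K, hK⟩ := exists_mu_bdd (by linarith) h4 h
  have hl0 : 0 < 1 + |l| := by positivity
  have hg : 0 < u - |w| := by linarith
  set ε : ℝ := (u - |w|) / (2 * (1 + |l|)) with hε
  have hε0 : 0 < ε := by positivity
  have hεl : ε * (1 + |l|) = (u - |w|) / 2 := by rw [hε]; field_simp
  -- pairs
  have hεw : |w - ε * l| ≤ u - ε ∧ |w + ε * l| ≤ u - ε := by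
    have h1 : |ε * l| = ε * |l| := by rw [abs_mul, abs_of_pos hε0]
    have h2 := abs_sub w (ε * l)
    have h5 := abs_add_le w (ε * l)
    rw [h1] at h2 h5
    constructor <;> nlinarith
  have hpairs : IsPair (u • C + w • D) (ε • (C + l • D)) ∧
      IsPair (u • C - w • D) (ε • (C - l • D)) := by
    have hF := psd_comb h (u := 1) (w := l) hl
    rw [one_smul] at hF
    have hG := psd_comb h hεw.1
    have e1 : u • C + w • D - ε • (C + l • D) = (u - ε) • C + (w - ε * l) • D := by module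
    have e2 : u • C - w • D - ε • (C - l • D) = (u - ε) • C - (w - ε * l) • D := by module
    refine ⟨⟨(pd_comb h hu).1, ?_, ?_⟩, ⟨(pd_comb h hu).2, ?_, ?_⟩⟩
    · rw [e1]; exact hG.1
    · exact (psd_comb h hu.le).1.add (hF.1.smul hε0.le)
    · rw [e2]; exact hG.2
    · exact (psd_comb h hu.le).2.add (hF.2.smul hε0.le)
  obtain ⟨hp1, hp2⟩ := hpairs
  -- the left power series
  have hδ : ∀ x : ℝ, |x| ≤ 1 → |ε * x| * (1 + |l|) < u - |w| := by
    intro x hx
    rw [abs_mul, abs_of_pos hε0]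
    have : ε * |x| * (1 + |l|) ≤ ε * 1 * (1 + |l|) := by gcongr
    nlinarith
  set α : ℕ → ℝ := fun n => bin p n * ε ^ n * ev (mu p C D) (sn p l u w n) with hα
  have hαs : Summable fun n => |α n| := by
    have h1 := (hasSum_ev_delta h4 (hδ 1 (by simp)) hK).1
    refine h1.congr fun n => ?_
    rw [mul_one]
  have hαx : ∀ x : ℝ, |x| ≤ 1 → HasSum (fun n => α n * x ^ n)
      (ev (mu p C D) (bu p (u + ε * x) (w + ε * x * l))) := by
    intro x hx
    refine (hasSum_ev_delta h4 (hδ x hx) hK).2.congr_fun fun n => ?_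
    simp only [hα]
    rw [mul_pow]
    ring
  -- the even part
  set α' : ℕ → ℝ := fun n => if Even n then α n else 0 with hα'
  set f : ℝ → ℝ := fun x => (Sy p (u • C + w • D) (ε • (C + l • D)) x +
    Sy p (u • C - w • D) (ε • (C - l • D)) x) / 2 with hf
  have hPS1 : PS α' f := by
    refine ⟨?_, fun x hx => ?_⟩
    · apply Summable.of_nonneg_of_le (fun _ => abs_nonneg _) (fun n => ?_) hαs
      simp only [hα']
      split_ifs
      · exact le_rfl
      · rw [abs_zero]; exact abs_nonneg _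
    · have h1 := ((hαx x hx).add (hαx (-x) (by rwa [abs_neg]))).div_const 2
      have e1 : (ev (mu p C D) (bu p (u + ε * x) (w + ε * x * l)) +
          ev (mu p C D) (bu p (u + ε * -x) (w + ε * -x * l))) / 2 = f x := by
        have hb : ∀ y : ℝ, |y| ≤ 1 → |w + ε * y * l| < u + ε * y := by
          intro y hy
          have h5 := hδ y hy
          have h6 : |w + ε * y * l| ≤ |w| + |ε * y| * |l| := by
            rw [← abs_mul]; exact abs_add_le _ _
          have h7 : -|ε * y| ≤ ε * y := neg_abs_le _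
          nlinarith
        rw [ev_bu h3 h4 h (hb x hx), ev_bu h3 h4 h (hb (-x) (by rwa [abs_neg]))]
        have g1 : (u + ε * x) • C + (w + ε * x * l) • D =
            u • C + w • D + x • (ε • (C + l • D)) := by module
        have g2 : (u + ε * x) • C - (w + ε * x * l) • D =
            u • C - w • D + x • (ε • (C - l • D)) := by module
        have g3 : (u + ε * -x) • C + (w + ε * -x * l) • D =
            u • C + w • D - x • (ε • (C + l • D)) := by module
        have g4 : (u + ε * -x) • C - (w + ε * -x * l) • D =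
            u • C - w • D - x • (ε • (C - l • D)) := by module
        rw [g1, g2, g3, g4]
        simp only [hf]
        unfold Sy
        ring
      rw [e1] at h1
      refine h1.congr_fun fun n => ?_
      simp only [hα']
      split_ifs with hn
      · rw [hn.neg_pow]; ring
      · rw [Nat.not_even_iff_odd] at hn
        rw [hn.neg_pow]; ring
  -- the right power series
  have hPS2 : PS (fun n => (bin p n * mu p (u • C + w • D) (ε • (C + l • D)) n +
      bin p n * mu p (u • C - w • D) (ε • (C - l • D)) n) / 2) f := by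
    have h1 := ((PS_Sy (by linarith) h4 h3.ne' hp1).add
      (PS_Sy (by linarith) h4 h3.ne' hp2)).smul (1 / 2)
    have e1 : (fun n => (1 / 2 : ℝ) * (bin p n * mu p (u • C + w • D) (ε • (C + l • D)) n +
      bin p n * mu p (u • C - w • D) (ε • (C - l • D)) n)) =
      fun n => (bin p n * mu p (u • C + w • D) (ε • (C + l • D)) n +
      bin p n * mu p (u • C - w • D) (ε • (C - l • D)) n) / 2 := by
      funext n; ring
    rw [e1] at h1
    refine h1.congr fun c _ => ?_
    simp only [hf]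
    ring
  have h6 := congr_fun (hPS1.unique hPS2 fun _ _ => rfl) 6
  have hb6 : bin p 6 ≠ 0 := by
    unfold bin
    rw [Finset.prod_range_succ, Finset.prod_range_succ, Finset.prod_range_succ,
      Finset.prod_range_succ, Finset.prod_range_succ, Finset.prod_range_one]
    have h7 : ((Nat.factorial 6 : ℕ) : ℝ) ≠ 0 := by exact_mod_cast Nat.factorial_ne_zero 6
    push_cast
    apply div_ne_zero _ h7
    have a0 : p - 0 ≠ 0 := by intro h; linarith
    have a1 : p - 1 ≠ 0 := by intro h; linarith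
    have a2 : p - 2 ≠ 0 := by intro h; linarith
    have a3 : p - 3 ≠ 0 := by intro h; linarith
    have a4 : p - 4 ≠ 0 := by intro h; linarith
    have a5 : p - 5 ≠ 0 := by intro h; linarith
    positivity
  have e6 : ∀ A E : Matrix κ κ ℂ, mu p A (ε • E) 6 = ε ^ 6 * Ts p A E 2 := by
    intro A E
    have := mu_even p A (ε • E) 2
    rw [Ts_smul_right] at this
    exact this
  simp only [hα', hα] at h6
  rw [if_pos (by decide), e6, e6] at h6
  have hε6 : ε ^ 6 ≠ 0 := by positivity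
  apply mul_left_cancel₀ (mul_ne_zero hb6 hε6)
  rw [h6]
  ring

/-! ### the `τ` integral -/

theorem scalar_tau {p e f : ℝ} (h3 : 3 < p) (h4 : p < 4) (he : 0 < e) (hf : 0 < f) :
    ∫ τ in Set.Ioi (0 : ℝ), (5 - p) * τ ^ (4 - p) * (f ^ 6 * (e + τ * f) ^ (p - 6)) =
      f ^ (p + 1) / e := by
  have hp5 : 0 < 5 - p := by linarith
  have hpos : ∀ τ : ℝ, 0 ≤ τ → 0 < e + τ * f := fun τ hτ => by positivity
  set g : ℝ → ℝ := fun τ => f ^ 6 * e⁻¹ * (τ / (e + τ * f)) ^ (5 - p) with hg
  have h1 : ∫ τ in Set.Ioi (0 : ℝ), (5 - p) * τ ^ (4 - p) * (f ^ 6 * (e + τ * f) ^ (p - 6)) =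
      f ^ (p + 1) / e - g 0 := by
    apply integral_Ioi_of_hasDerivAt_of_nonneg (g := g)
    · apply ContinuousAt.continuousWithinAt
      apply continuousAt_const.mul
      apply ContinuousAt.rpow_const
      · apply ContinuousAt.div continuousAt_id (by fun_prop)
        exact (hpos 0 le_rfl).ne'
      · right; exact hp5.le
    · intro τ hτ
      have hτ0 : (0 : ℝ) < τ := hτ
      have h2 := hpos τ hτ0.le
      have d1 : HasDerivAt (fun τ : ℝ => e + τ * f) f τ := by
        simpa using ((hasDerivAt_id τ).mul_const f).const_add e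
      have d2 : HasDerivAt (fun τ : ℝ => τ / (e + τ * f)) (e / (e + τ * f) ^ 2) τ :=
        ((hasDerivAt_id τ).div d1 h2.ne').congr_deriv (by simp only [id_eq]; ring)
      have hq : 0 < τ / (e + τ * f) := div_pos hτ0 h2
      have d3 := (d2.rpow_const (p := 5 - p) (Or.inl hq.ne')).const_mul (f ^ 6 * e⁻¹)
      refine d3.congr_deriv ?_
      have e1 : (τ / (e + τ * f)) ^ (5 - p - 1) = τ ^ (4 - p) * (e + τ * f) ^ (p - 4) := by
        have e2 : (5 - p - 1 : ℝ) = 4 - p := by ring
        rw [e2, Real.div_rpow hτ0.le h2.le, div_eq_mul_inv, ← Real.rpow_neg h2.le]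
        congr 2
        ring
      have e3 : (e + τ * f) ^ (p - 4) = (e + τ * f) ^ (p - 6) * (e + τ * f) ^ 2 := by
        rw [← Real.rpow_natCast, ← Real.rpow_add h2]
        congr 1
        push_cast
        ring
      rw [e1, e3]
      field_simp
    · intro τ hτ
      have hτ0 : (0 : ℝ) < τ := hτ
      have h2 := hpos τ hτ0.le
      positivity
    · have h2 : Tendsto (fun τ : ℝ => τ / (e + τ * f)) atTop (𝓝 (1 / f)) := by
        have h5 : Tendsto (fun τ : ℝ => 1 / (e / τ + f)) atTop (𝓝 (1 / (0 + f))) := by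
          apply Tendsto.div tendsto_const_nhds _ (by rw [zero_add]; exact hf.ne')
          exact (tendsto_const_nhds.div_atTop tendsto_id).add tendsto_const_nhds
        rw [zero_add] at h5
        apply h5.congr'
        filter_upwards [eventually_gt_atTop 0] with τ hτ
        have := hpos τ hτ.le
        field_simp
      have h5 := (h2.rpow_const (p := 5 - p) (Or.inr hp5.le)).const_mul (f ^ 6 * e⁻¹)
      have e1 : f ^ 6 * e⁻¹ * (1 / f) ^ (5 - p) = f ^ (p + 1) / e := by
        rw [one_div, Real.inv_rpow hf.le, ← Real.rpow_neg hf.le, ← Real.rpow_natCast]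
        rw [show f ^ (((6 : ℕ) : ℝ)) * e⁻¹ * f ^ (-(5 - p)) =
          f ^ (((6 : ℕ) : ℝ)) * f ^ (-(5 - p)) * e⁻¹ by ring, ← Real.rpow_add hf, div_eq_mul_inv]
        congr 2
        push_cast
        ring
      rw [e1] at h5
      exact h5
  have h0 : g 0 = 0 := by
    simp only [hg, zero_mul, add_zero, zero_div]
    rw [Real.zero_rpow hp5.ne', mul_zero]
  rw [h1, h0, sub_zero]

theorem tau_lt {l η τ : ℝ} (hl : |l| < 1) (hη : |η| < 1) (hτ : 0 ≤ τ) :
    (1 - max |l| |η|) * (1 + τ) ≤ 1 + τ - |η + τ * l| := by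
  have h1 : |η + τ * l| ≤ |η| + τ * |l| := by
    refine (abs_add_le _ _).trans ?_
    rw [abs_mul, abs_of_nonneg hτ]
  have h2 := le_max_left |l| |η|
  have h3 := le_max_right |l| |η|
  have h5 : τ * |l| ≤ τ * max |l| |η| := mul_le_mul_of_nonneg_left h2 hτ
  nlinarith

theorem tau_lt' {l η τ : ℝ} (hl : |l| < 1) (hη : |η| < 1) (hτ : 0 ≤ τ) :
    |η + τ * l| < 1 + τ := by
  have h1 := tau_lt hl hη hτ
  have h2 : 0 < 1 - max |l| |η| := by
    have := max_lt hl hη
    linarith
  have : 0 < (1 - max |l| |η|) * (1 + τ) := by positivity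
  linarith

/-- **(T1)**: `(1+lc)^(p+1)/(1+ηc)` as an integral of `(1+lc)^6 (1+τ+(η+τl)c)^(p-6)` -/
theorem tau_int {p l η : ℝ} (h3 : 3 < p) (h4 : p < 4) (hl : |l| < 1) (hη : |η| < 1) :
    PS (fun k => ∫ τ in Set.Ioi (0 : ℝ), (5 - p) * τ ^ (4 - p) *
        sn p l (1 + τ) (η + τ * l) 6 k)
      (fun c => (1 + l * c) ^ (p + 1) / (1 + η * c)) ∧
    ∀ (ν : ℕ → ℝ) (K : ℝ), (∀ k, |ν k| ≤ K) →
      ev ν (fun k => ∫ τ in Set.Ioi (0 : ℝ), (5 - p) * τ ^ (4 - p) *
        sn p l (1 + τ) (η + τ * l) 6 k) =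
      ∫ τ in Set.Ioi (0 : ℝ), (5 - p) * τ ^ (4 - p) * ev ν (sn p l (1 + τ) (η + τ * l) 6) := by
  have hρ : 0 < 1 - max |l| |η| := by
    have := max_lt hl hη
    linarith
  set ρ := 1 - max |l| |η| with hρd
  have hp5 : 0 < 5 - p := by linarith
  set C0 : ℝ := (5 - p) * (1 + |l|) ^ 6 * ρ ^ (p - 6) with hC0
  have hPS : ∀ᵐ τ ∂(volume.restrict (Set.Ioi (0 : ℝ))),
      PS (fun k => (5 - p) * τ ^ (4 - p) * sn p l (1 + τ) (η + τ * l) 6 k)
        (fun c => (5 - p) * τ ^ (4 - p) *
          ((1 + l * c) ^ 6 * (1 + τ + (η + τ * l) * c) ^ (p - ((6 : ℕ) : ℝ)))) := by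
    rw [ae_restrict_iff' measurableSet_Ioi]
    refine Eventually.of_forall fun τ hτ => ?_
    exact (PS_sn p l (tau_lt' hl hη (le_of_lt hτ)) 6).smul _
  have hm : ∀ k, AEStronglyMeasurable
      (fun τ : ℝ => (5 - p) * τ ^ (4 - p) * sn p l (1 + τ) (η + τ * l) 6 k)
      (volume.restrict (Set.Ioi (0 : ℝ))) := by
    intro k
    apply ContinuousOn.aestronglyMeasurable _ measurableSet_Ioi
    intro τ hτ
    have hτ0 : (0 : ℝ) < τ := hτ
    apply ContinuousAt.continuousWithinAt
    apply ContinuousAt.mul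
    · exact continuousAt_const.mul (Real.continuousAt_rpow_const _ _ (Or.inl hτ0.ne'))
    · unfold sn PS.conv bu
      apply tendsto_finsetSum
      intro i _
      apply ContinuousAt.mul continuousAt_const
      apply ContinuousAt.mul
      · apply ContinuousAt.rpow_const (by fun_prop)
        left
        positivity
      · apply ContinuousAt.mul continuousAt_const
        apply ContinuousAt.pow
        apply ContinuousAt.div (by fun_prop) (by fun_prop)
        positivity
  have hg : Integrable (fun τ : ℝ => C0 * (τ ^ ((5 - p) - 1) * (1 / (1 + τ)) ^ 2))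
      (volume.restrict (Set.Ioi (0 : ℝ))) :=
    (DEC.integrableOn_majorant (α := 5 - p) (c := 1) hp5 one_pos (n := 2)
      (by push_cast; linarith)).const_mul C0
  have hb : ∀ᵐ τ ∂(volume.restrict (Set.Ioi (0 : ℝ))),
      N1 (fun k => (5 - p) * τ ^ (4 - p) * sn p l (1 + τ) (η + τ * l) 6 k) ≤
        C0 * (τ ^ ((5 - p) - 1) * (1 / (1 + τ)) ^ 2) := by
    rw [ae_restrict_iff' measurableSet_Ioi]
    refine Eventually.of_forall fun τ hτ => ?_
    have hτ0 : (0 : ℝ) < τ := hτ
    have hτ1 : (0 : ℝ) < 1 + τ := by linarith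
    rw [N1_smul, abs_of_nonneg (by positivity)]
    have h1 : N1 (sn p l (1 + τ) (η + τ * l) 6) ≤
        (1 + |l|) ^ 6 * (1 + τ - |η + τ * l|) ^ (p - ((6 : ℕ) : ℝ)) :=
      N1_sn l (tau_lt' hl hη hτ0.le) (by push_cast; linarith)
    have h2 := tau_lt hl hη hτ0.le
    have h5 : (1 + τ - |η + τ * l|) ^ (p - ((6 : ℕ) : ℝ)) ≤ ρ ^ (p - 6) * (1 / (1 + τ)) ^ 2 := by
      calc (1 + τ - |η + τ * l|) ^ (p - ((6 : ℕ) : ℝ))
          ≤ (ρ * (1 + τ)) ^ (p - ((6 : ℕ) : ℝ)) :=
            Real.rpow_le_rpow_of_nonpos (by positivity) h2 (by push_cast; linarith)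
        _ = ρ ^ (p - 6) * (1 + τ) ^ (p - 6) := by
            push_cast
            rw [Real.mul_rpow hρ.le hτ1.le]
        _ ≤ ρ ^ (p - 6) * (1 / (1 + τ)) ^ 2 := by
            apply mul_le_mul_of_nonneg_left _ (by positivity)
            have : (1 / (1 + τ)) ^ 2 = (1 + τ) ^ (-2 : ℝ) := by
              rw [Real.rpow_neg hτ1.le, one_div, inv_pow]
              norm_cast
            rw [this]
            exact Real.rpow_le_rpow_of_exponent_le (by linarith) (by linarith)
    calc (5 - p) * τ ^ (4 - p) * N1 (sn p l (1 + τ) (η + τ * l) 6)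
        ≤ (5 - p) * τ ^ (4 - p) * ((1 + |l|) ^ 6 * (ρ ^ (p - 6) * (1 / (1 + τ)) ^ 2)) := by
          apply mul_le_mul_of_nonneg_left _ (by positivity)
          exact h1.trans (mul_le_mul_of_nonneg_left h5 (by positivity))
      _ = _ := by
          have e1 : (5 - p - 1 : ℝ) = 4 - p := by ring
          rw [e1, hC0]
          ring
  refine ⟨?_, fun ν K hν => ?_⟩
  · refine (PS.integral hPS hm hg hb).congr fun c hc => ?_
    have he : 0 < 1 + η * c := by
      have : |η * c| < 1 := by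
        rw [abs_mul]; exact (mul_le_of_le_one_right (abs_nonneg _) hc).trans_lt hη
      linarith [(abs_lt.1 this).1]
    have hf : 0 < 1 + l * c := by
      have : |l * c| < 1 := by
        rw [abs_mul]; exact (mul_le_of_le_one_right (abs_nonneg _) hc).trans_lt hl
      linarith [(abs_lt.1 this).1]
    rw [← scalar_tau h3 h4 he hf]
    apply setIntegral_congr_fun measurableSet_Ioi
    intro τ _
    simp only
    have e1 : 1 + τ + (η + τ * l) * c = 1 + η * c + τ * (1 + l * c) := by ring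
    rw [e1]
    norm_num
  · rw [ev_integral (hPS.mono fun _ h => h.sum) hm hg hb hν]
    congr 1
    funext τ
    exact ev_smul _ _ _

open Pool.Agent.GC34 in
/-- **RID in coefficient form**, from the matrix `τ` integral (T2) -/
theorem rid_coeff_of {p : ℝ} (h3 : 3 < p) (h4 : p < 4)
    (T2 : ∀ {κ : Type} [Fintype κ] [DecidableEq κ] {F E : Matrix κ κ ℂ}, F.PosDef → E.PosDef →
      IntegrableOn (fun τ : ℝ => τ ^ (4 - p) * (In p (E + τ • F) F 6 / bet p 6))
        (Set.Ioi 0) ∧
      (5 - p) * ∫ τ in Set.Ioi (0 : ℝ), τ ^ (4 - p) * (In p (E + τ • F) F 6 / bet p 6) =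
        Rr p F E)
    {C D : Matrix κ κ ℂ} (h : Strict C D) {l η : ℝ} (hl : |l| < 1) (hη : |η| < 1)
    {a : ℕ → ℝ} (ha : ∀ x : ℝ, |x| < 1 →
      HasSum (fun k => a k * x ^ k) ((1 + l * x) ^ (p + 1) / (1 + η * x))) :
    HasSum (fun k => a k * ms p C D k)
      ((Rr p (C + l • D) (C + η • D) + Rr p (C - l • D) (C - η • D)) / 2) := by
  have hp := Lib_helper92.GC34.isPair_of_strict h
  obtain ⟨K, hK⟩ := exists_mu_bdd (by linarith) h4 hp
  obtain ⟨t1, t2⟩ := tau_int h3 h4 hl hη
  have e : a = fun k => ∫ τ in Set.Ioi (0 : ℝ), (5 - p) * τ ^ (4 - p) *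
      sn p l (1 + τ) (η + τ * l) 6 k := unique_of_hasSum ha fun c hc => t1.has c hc.le
  rw [Lib_helper92.GC34.ms_eq_mu hp, e]
  have h1 := hasSum_ev t1.sum hK
  rw [t2 _ K hK] at h1
  have hF := pd_comb hp (u := 1) (w := l) hl
  have hE := pd_comb hp (u := 1) (w := η) hη
  rw [one_smul] at hF hE
  obtain ⟨i1, v1⟩ := T2 hF.1 hE.1
  obtain ⟨i2, v2⟩ := T2 hF.2 hE.2
  have e2 : ∫ τ in Set.Ioi (0 : ℝ), (5 - p) * τ ^ (4 - p) *
      ev (mu p C D) (sn p l (1 + τ) (η + τ * l) 6) =
      (Rr p (C + l • D) (C + η • D) + Rr p (C - l • D) (C - η • D)) / 2 := by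
    rw [← v1, ← v2, ← mul_add, ← integral_add i1 i2, mul_div_assoc, ← integral_div,
      ← integral_const_mul]
    apply setIntegral_congr_fun measurableSet_Ioi
    intro τ hτ
    have g1 : (1 + τ) • C + (η + τ * l) • D = C + η • D + τ • (C + l • D) := by module
    have g2 : (1 + τ) • C - (η + τ * l) • D = C - η • D + τ • (C - l • D) := by module
    simp only
    rw [ev_sn_six h3 h4 hp hl.le (tau_lt' hl hη (le_of_lt hτ)), g1, g2]
    have g3 : ∀ A E : Matrix κ κ ℂ, Ts p A E 2 = In p A E 6 / bet p 6 := fun A E => rfl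
    rw [g3, g3]
    ring
  rw [e2] at h1
  exact h1

end Pool.Agent.GC
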